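import Pool.Agent.H159R3.NV.Wron

/-!
Determinants of derivatives of `N`-th powers.
-/

set_option autoImplicit false

namespace Pool.Agent.H159R3.NV

open Finset

/-- scaling law for Wronskian determinants at a point -/
theorem scale_det {m : ℕ} (q : ℂ → ℂ) (g : Fin m → ℂ → ℂ) (z : ℂ) (hq : AnalyticAt ℂ q z)
    (hg : ∀ b, AnalyticAt ℂ (g b) z) :
    (Matrix.of fun b l : Fin m => iteratedDeriv l (fun w => q w * g b w) z).det
      = q z ^ m * (Matrix.of fun b l : Fin m => iteratedDeriv l (g b) z).det := by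
  have h1 : (Matrix.of fun b l : Fin m => iteratedDeriv l (fun w => q w * g b w) z)
      = (Matrix.of fun b l : Fin m => iteratedDeriv l (g b) z) *
        (Matrix.of fun k l : Fin m => if (k : ℕ) ≤ l then
          ((l : ℕ).choose ((l : ℕ) - k) : ℂ) * iteratedDeriv ((l : ℕ) - k) q z else 0) := by
    ext b l
    rw [Matrix.mul_apply, Matrix.of_apply,
      iteratedDeriv_fun_mul (hq.contDiffAt) ((hg b).contDiffAt)]
    simp only [Matrix.of_apply]
    have h2 : ∑ i ∈ Finset.range ((l : ℕ) + 1), (((l : ℕ).choose i : ℕ) : ℂ) * iteratedDeriv i q z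
        * iteratedDeriv ((l : ℕ) - i) (g b) z
        = ∑ i ∈ Finset.range ((l : ℕ) + 1), (((l : ℕ).choose ((l : ℕ) - i) : ℕ) : ℂ)
          * iteratedDeriv ((l : ℕ) - i) q z * iteratedDeriv i (g b) z := by
      rw [← Finset.sum_range_reflect]
      refine Finset.sum_congr rfl fun i hi => ?_
      have hi' : i ≤ l := by
        have := Finset.mem_range.mp hi
        omega
      have e1 : (l : ℕ) + 1 - 1 - i = l - i := by omega
      have e2 : (l : ℕ) - (l - i) = i := by omega
      rw [e1, e2]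
    rw [h2]
    rw [Fin.sum_univ_eq_sum_range (fun i => iteratedDeriv i (g b) z * (if i ≤ (l : ℕ) then
          ((l : ℕ).choose ((l : ℕ) - i) : ℂ) * iteratedDeriv ((l : ℕ) - i) q z else 0)) m]
    have hlm : (l : ℕ) + 1 ≤ m := l.2
    rw [← Finset.sum_subset (Finset.range_mono hlm)]
    · refine Finset.sum_congr rfl fun i hi => ?_
      have hi' : i ≤ l := by
        have := Finset.mem_range.mp hi
        omega
      rw [if_pos hi']
      ring
    · intro i _ hi
      have : ¬ i ≤ (l : ℕ) := by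
        intro h
        exact hi (Finset.mem_range.mpr (by omega))
      rw [if_neg this, mul_zero]
  have h3 : (Matrix.of fun k l : Fin m => if (k : ℕ) ≤ l then
          ((l : ℕ).choose ((l : ℕ) - k) : ℂ) * iteratedDeriv ((l : ℕ) - k) q z else 0).det
        = q z ^ m := by
    rw [Matrix.det_of_isUpperTriangular]
    · simp
    · intro i j hij
      simp only [Matrix.of_apply]
      rw [if_neg]
      simpa using hij
  rw [h1, Matrix.det_mul, h3, mul_comm]

theorem pow_deriv {u : ℂ → ℂ} (hu : Differentiable ℂ u) (N : ℕ) :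
    ∀ k : ℕ, k ≤ N → ∃ p : ℂ → ℂ, Differentiable ℂ p ∧
      iteratedDeriv k (fun w => u w ^ N) = fun z => u z ^ (N - k) * p z := by
  intro k
  induction k with
  | zero =>
    intro _
    refine ⟨fun _ => 1, differentiable_const _, ?_⟩
    simp
  | succ k ih =>
    intro hk
    obtain ⟨p, hp, he⟩ := ih (by omega)
    have hdu : Differentiable ℂ (deriv u) := (hu.contDiff (n := 2)).differentiable_deriv_two
    have hdp : Differentiable ℂ (deriv p) := (hp.contDiff (n := 2)).differentiable_deriv_two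
    refine ⟨fun z => ((N - k : ℕ) : ℂ) * deriv u z * p z + u z * deriv p z,
      (((hdu.const_mul _).mul hp).add (hu.mul hdp)), ?_⟩
    rw [iteratedDeriv_succ, he]
    funext z
    have h1 : HasDerivAt (fun z => u z ^ (N - k) * p z)
        (((N - k : ℕ) : ℂ) * u z ^ (N - k - 1) * deriv u z * p z + u z ^ (N - k) * deriv p z) z := by
      exact ((hu z).hasDerivAt.pow (N - k)).mul (hp z).hasDerivAt
    rw [h1.deriv]
    have e : N - k = (N - (k + 1)) + 1 := by omega
    have e2 : N - k - 1 = N - (k + 1) := by omega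
    rw [e2]
    have e3 : u z ^ (N - k) = u z ^ (N - (k + 1)) * u z := by
      rw [e, pow_succ]
    rw [e3]
    ring

/-- the `i`-th minor -/
noncomputable def wr {m : ℕ} (N : ℕ) (u : Fin (m + 1) → ℂ → ℂ) (i : Fin (m + 1)) (z : ℂ) : ℂ :=
  (Matrix.of fun b l : Fin m => iteratedDeriv l (fun w => u (i.succAbove b) w ^ N) z).det

theorem wr_norm {m : ℕ} (N : ℕ) (u : Fin (m + 1) → ℂ → ℂ) (hu : ∀ j, Differentiable ℂ (u j))
    (hs : ∀ z, ∑ j, u j z ^ N = 0) (i : Fin (m + 1)) :
    ∃ ε : ℂ, (ε = 1 ∨ ε = -1) ∧ ∀ z, wr N u i z = ε * wr N u 0 z := by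
  have h' : ∀ z, wr N u i z
      = Int.negOnePow (((i : ℕ) : ℤ) - ((0 : Fin (m + 1)) : ℕ)) • wr N u 0 z := by
    intro z
    exact Matrix.submatrix_succAbove_det_eq_negOnePow_submatrix_succAbove_det
      (Matrix.of fun (j : Fin (m + 1)) (l : Fin m) => iteratedDeriv l (fun w => u j w ^ N) z) (by
      funext l
      rw [Finset.sum_apply]
      simp only [Matrix.of_apply, Pi.zero_apply]
      have h1 : iteratedDeriv l (fun w => ∑ j, u j w ^ N) z = 0 := by
        have : (fun w => ∑ j, u j w ^ N) = fun _ => (0 : ℂ) := funext hs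
        rw [this]
        simp
      rw [← h1]
      rw [iteratedDeriv_fun_sum]
      intro j _
      exact (((hu j).contDiff).pow N).contDiffAt) i 0
  rcases Int.units_eq_one_or (Int.negOnePow (((i : ℕ) : ℤ) - ((0 : Fin (m + 1)) : ℕ))) with h1 | h1
  · exact ⟨1, Or.inl rfl, fun z => by rw [h', h1]; simp⟩
  · exact ⟨-1, Or.inr rfl, fun z => by rw [h', h1]; simp⟩

/-- the minors are divisible by the powers of the functions -/
theorem wr_div {m : ℕ} (N : ℕ) (hN : m ≤ N + 1) (u : Fin (m + 1) → ℂ → ℂ)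
    (hu : ∀ j, Differentiable ℂ (u j)) (i : Fin (m + 1)) :
    ∃ D : ℂ → ℂ, Differentiable ℂ D ∧
      ∀ z, wr N u i z = (∏ b : Fin m, u (i.succAbove b) z) ^ (N + 1 - m) * D z := by
  have h1 : ∀ b l : Fin m, ∃ p : ℂ → ℂ, Differentiable ℂ p ∧
      iteratedDeriv l (fun w => u (i.succAbove b) w ^ N)
        = fun z => u (i.succAbove b) z ^ (N + 1 - m) * p z := by
    intro b l
    have hl := l.2
    obtain ⟨p, hp, he⟩ := pow_deriv (hu (i.succAbove b)) N l (by omega)
    refine ⟨fun z => u (i.succAbove b) z ^ (m - 1 - l) * p z,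
      ((hu (i.succAbove b)).pow _).mul hp, ?_⟩
    rw [he]
    funext z
    have e : N - (l : ℕ) = (N + 1 - m) + (m - 1 - l) := by omega
    rw [e, pow_add]
    ring
  choose p hp he using h1
  refine ⟨fun z => (Matrix.of fun b l : Fin m => p b l z).det, ?_, ?_⟩
  · have : (fun z => (Matrix.of fun b l : Fin m => p b l z).det)
        = fun z => ∑ σ : Equiv.Perm (Fin m), ((Equiv.Perm.sign σ : ℤ) : ℂ) * ∏ i, p (σ i) i z := by
      funext z
      rw [Matrix.det_apply']
      rfl
    rw [this]
    apply Differentiable.fun_sum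
    intro σ _
    apply Differentiable.const_mul
    apply Differentiable.fun_finset_prod
    intro i _
    exact hp _ _
  · intro z
    unfold wr
    have : (Matrix.of fun b l : Fin m => iteratedDeriv l (fun w => u (i.succAbove b) w ^ N) z)
        = Matrix.of fun b l : Fin m => u (i.succAbove b) z ^ (N + 1 - m) * p b l z := by
      ext b l
      simp only [Matrix.of_apply]
      rw [he]
    rw [this]
    have h2 := Matrix.det_mul_column (fun b : Fin m => u (i.succAbove b) z ^ (N + 1 - m))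
      (Matrix.of fun b l : Fin m => p b l z)
    simp only [Matrix.of_apply] at h2
    rw [h2, Finset.prod_pow]

theorem wr_diff {m : ℕ} (N : ℕ) (u : Fin (m + 1) → ℂ → ℂ)
    (hu : ∀ j, Differentiable ℂ (u j)) (i : Fin (m + 1)) : Differentiable ℂ (wr N u i) := by
  have : (wr N u i)
      = fun z => ∑ σ : Equiv.Perm (Fin m), ((Equiv.Perm.sign σ : ℤ) : ℂ) *
        ∏ k : Fin m, iteratedDeriv k (fun w => u (i.succAbove (σ k)) w ^ N) z := by
    funext z
    unfold wr
    rw [Matrix.det_apply']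
    rfl
  rw [this]
  apply Differentiable.fun_sum
  intro σ _
  apply Differentiable.const_mul
  apply Differentiable.fun_finset_prod
  intro k _
  have h := ((hu (i.succAbove (σ k))).pow N).contDiff (n := ((k : ℕ) + 1 : ℕ))
  exact h.differentiable_iteratedDeriv k (by exact_mod_cast Nat.lt_succ_self _)

/-- scaling of the minors -/
theorem wr_scale {m : ℕ} (N : ℕ) (q : ℂ → ℂ) (hq : Differentiable ℂ q) (u : Fin (m + 1) → ℂ → ℂ)
    (hu : ∀ j, Differentiable ℂ (u j)) (i : Fin (m + 1)) (z : ℂ) :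
    wr N (fun j w => q w * u j w) i z = q z ^ (N * m) * wr N u i z := by
  unfold wr
  have h := scale_det (m := m) (fun w => q w ^ N) (fun b w => u (i.succAbove b) w ^ N) z
    ((hq.pow N).analyticAt z) (fun b => ((hu _).pow N).analyticAt z)
  simp only [mul_pow]
  rw [h, pow_mul]

/-- bound for a determinant -/
theorem det_bound {m : ℕ} (A : Matrix (Fin m) (Fin m) ℂ) (K : Fin m → ℝ)
    (hA : ∀ b l, ‖A b l‖ ≤ K b) : ‖A.det‖ ≤ (Nat.factorial m) * ∏ b, K b := by
  rw [Matrix.det_apply']
  refine (norm_sum_le _ _).trans ?_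
  have : ∀ σ ∈ (Finset.univ : Finset (Equiv.Perm (Fin m))),
      ‖((Equiv.Perm.sign σ : ℤ) : ℂ) * ∏ i, A (σ i) i‖ ≤ ∏ b, K b := by
    intro σ _
    rw [norm_mul, norm_prod]
    have h1 : ‖((Equiv.Perm.sign σ : ℤ) : ℂ)‖ = 1 := by
      rcases Int.units_eq_one_or (Equiv.Perm.sign σ) with h | h <;> simp [h]
    rw [h1, one_mul]
    calc ∏ i, ‖A (σ i) i‖ ≤ ∏ i, K (σ i) :=
          Finset.prod_le_prod (fun i _ => norm_nonneg _) (fun i _ => hA _ _)
      _ = ∏ b, K b := Equiv.prod_comp σ K
  refine (Finset.sum_le_card_nsmul _ _ _ this).trans ?_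
  rw [Finset.card_univ, Fintype.card_perm, Fintype.card_fin, nsmul_eq_mul]

end Pool.Agent.H159R3.NV
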