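import Pool.Agent.H159R3.NV.Jensen

/-!
Factoring out the zeros of entire functions in a disc, with a count.
-/

set_option autoImplicit false

namespace Pool.Agent.H159R3.NV

open Filter Metric Real Set Topology

/-- product of linear factors -/
noncomputable def P (Z : List ℂ) (z : ℂ) : ℂ := (Z.map (fun a => z - a)).prod

theorem P_nil (z : ℂ) : P [] z = 1 := rfl

theorem P_cons (a : ℂ) (Z : List ℂ) (z : ℂ) : P (a :: Z) z = (z - a) * P Z z := by
  simp [P]

theorem P_diff (Z : List ℂ) : Differentiable ℂ (P Z) := by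
  induction Z with
  | nil =>
    have : P [] = fun _ => 1 := funext P_nil
    rw [this]; exact differentiable_const _
  | cons a Z ih =>
    have : P (a :: Z) = fun z => (z - a) * P Z z := funext (P_cons a Z)
    rw [this]
    exact (differentiable_id.sub_const a).mul ih

theorem P_ne (Z : List ℂ) (z : ℂ) (h : ∀ a ∈ Z, z ≠ a) : P Z z ≠ 0 := by
  unfold P
  apply List.prod_ne_zero
  intro h0
  obtain ⟨a, ha, h1⟩ := List.mem_map.mp h0
  exact h a ha (sub_eq_zero.mp h1)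

theorem L_lin {a : ℂ} {R : ℝ} (hR : 0 < R) (ha : ‖a‖ ≤ R) : L (fun z => z - a) R = Real.log R := by
  unfold L
  rw [circleAverage_log_norm_sub_const_of_mem_closedBall]
  rw [mem_closedBall, dist_zero_right, abs_of_pos hR]
  exact ha

theorem count_le (Z : List ℂ) (k : ℂ → ℂ) (hk : Differentiable ℂ k) {ρ R : ℝ} (hρ : 0 < ρ)
    (hR : ρ < R) (hZ : ∀ a ∈ Z, ‖a‖ ≤ ρ) (h0 : P Z 0 * k 0 ≠ 0) :
    Z.length * Real.log (R / ρ) ≤ L (fun z => P Z z * k z) R - Real.log ‖P Z 0 * k 0‖ := by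
  induction Z with
  | nil =>
    simp only [P_nil, one_mul] at h0 ⊢
    have := jensen_entire (hρ.trans hR) hk h0
    simp only [List.length_nil, Nat.cast_zero, zero_mul]
    exact sub_nonneg.mpr this
  | cons a Z ih =>
    have hR0 : 0 < R := hρ.trans hR
    rw [P_cons] at h0
    have ha0 : (0 - a) ≠ 0 := fun h => h0 (by rw [h]; ring)
    have h1 : P Z 0 * k 0 ≠ 0 := fun h => h0 (by rw [mul_assoc, h, mul_zero])
    have ih' := ih (fun b hb => hZ b (List.mem_cons_of_mem _ hb)) h1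
    have ha : ‖a‖ ≤ ρ := hZ a List.mem_cons_self
    have e1 : (fun z => P (a :: Z) z * k z) = fun z => (z - a) * (P Z z * k z) := by
      funext z; rw [P_cons]; ring
    have h2 : L (fun z => (z - a) * (P Z z * k z)) R
        = L (fun z => z - a) R + L (fun z => P Z z * k z) R :=
      L_mul (f := fun z => z - a) (g := fun z => P Z z * k z) (differentiable_id.sub_const a)
        ((P_diff Z).mul hk) (x := 0) (y := 0) ha0 h1 hR0.ne'
    rw [e1, h2, L_lin hR0 (ha.trans hR.le), P_cons, mul_assoc, norm_mul,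
      Real.log_mul (norm_ne_zero_iff.mpr ha0) (norm_ne_zero_iff.mpr h1), zero_sub, norm_neg]
    have hapos : 0 < ‖a‖ := by
      rw [norm_pos_iff]
      intro h
      exact ha0 (by rw [h, sub_zero])
    have h3 : Real.log ‖a‖ ≤ Real.log ρ := Real.log_le_log hapos ha
    rw [Real.log_div hR0.ne' hρ.ne'] at ih' ⊢
    push_cast [List.length_cons]
    linarith

theorem dslope_diff {f : ℂ → ℂ} (hf : Differentiable ℂ f) (a : ℂ) :
    Differentiable ℂ (dslope f a) := by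
  rw [← differentiableOn_univ]
  exact (Complex.differentiableOn_dslope univ_mem).mpr hf.differentiableOn

theorem dslope_fac {f : ℂ → ℂ} {a : ℂ} (h : f a = 0) (z : ℂ) : f z = (z - a) * dslope f a z := by
  have := sub_smul_dslope f a z
  rw [smul_eq_mul, h, sub_zero] at this
  exact this.symm

/-- removing the common zeros in a disc -/
theorem factor_tuple {ι : Type} (u : ι → ℂ → ℂ) (hu : ∀ j, Differentiable ℂ (u j)) (j0 : ι)
    (h0 : u j0 0 ≠ 0) {ρ : ℝ} (hρ : 0 < ρ) :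
    ∃ (Z : List ℂ) (v : ι → ℂ → ℂ), (∀ j, Differentiable ℂ (v j)) ∧
      (∀ j z, u j z = P Z z * v j z) ∧ (∀ a ∈ Z, ‖a‖ ≤ ρ) ∧
      ∀ z, ‖z‖ ≤ ρ → ∃ j, v j z ≠ 0 := by
  by_contra hcon
  have step : ∀ n : ℕ, ∃ (Z : List ℂ) (v : ι → ℂ → ℂ), Z.length = n ∧
      (∀ j, Differentiable ℂ (v j)) ∧
      (∀ j z, u j z = P Z z * v j z) ∧ (∀ a ∈ Z, ‖a‖ ≤ ρ) := by
    intro n
    induction n with
    | zero => exact ⟨[], u, rfl, hu, fun j z => by rw [P_nil, one_mul], by simp⟩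
    | succ n ih =>
      obtain ⟨Z, v, hlen, hv, hfac, hZ⟩ := ih
      have h1 : ∃ z, ‖z‖ ≤ ρ ∧ ∀ j, v j z = 0 := by
        by_contra hne
        push Not at hne
        exact hcon ⟨Z, v, hv, hfac, hZ, fun z hz => hne z hz⟩
      obtain ⟨a, ha, hva⟩ := h1
      refine ⟨a :: Z, fun j => dslope (v j) a, by simp [hlen], fun j => dslope_diff (hv j) a, ?_, ?_⟩
      · intro j z
        rw [hfac j z, P_cons, dslope_fac (hva j) z]
        ring
      · intro b hb
        rcases List.mem_cons.mp hb with rfl | hb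
        · exact ha
        · exact hZ b hb
  set C : ℝ := L (u j0) (2 * ρ) - Real.log ‖u j0 0‖ with hC
  have hbound : ∀ n : ℕ, (n : ℝ) * Real.log 2 ≤ C := by
    intro n
    obtain ⟨Z, v, hlen, hv, hfac, hZ⟩ := step n
    have h1 : P Z 0 * v j0 0 ≠ 0 := by rw [← hfac]; exact h0
    have h2 := count_le Z (v j0) (hv j0) hρ (R := 2 * ρ) (by linarith) hZ h1
    rw [← hfac] at h2
    have e : (fun z => P Z z * v j0 z) = u j0 := funext fun z => (hfac j0 z).symm
    rw [e, hlen] at h2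
    have e2 : 2 * ρ / ρ = 2 := by field_simp
    rw [e2] at h2
    exact h2
  obtain ⟨n, hn⟩ := exists_nat_gt (C / Real.log 2)
  have hl2 : 0 < Real.log 2 := Real.log_pos (by norm_num)
  have := hbound n
  rw [div_lt_iff₀ hl2] at hn
  linarith

/-- factoring out the zeros of an entire function in a disc -/
theorem factor_ball (u : ℂ → ℂ) (hu : Differentiable ℂ u) (h0 : u 0 ≠ 0) {ρ : ℝ} (hρ : 0 < ρ) :
    ∃ (Z : List ℂ) (k : ℂ → ℂ), Differentiable ℂ k ∧
      (∀ z, u z = P Z z * k z) ∧ (∀ a ∈ Z, ‖a‖ ≤ ρ) ∧ ∀ z, ‖z‖ ≤ ρ → k z ≠ 0 := by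
  obtain ⟨Z, v, hv, hfac, hZ, hne⟩ := factor_tuple (fun _ : Unit => u) (fun _ => hu) () h0 hρ
  exact ⟨Z, v (), hv (), hfac (), hZ, fun z hz => by
    obtain ⟨j, hj⟩ := hne z hz
    exact hj⟩

/-- normalised removal of common zeros -/
theorem common_zeros {ι : Type} (u : ι → ℂ → ℂ) (hu : ∀ j, Differentiable ℂ (u j)) (j0 : ι)
    (h0 : u j0 0 ≠ 0) {ρ : ℝ} (hρ : 0 < ρ) :
    ∃ (q : ℂ → ℂ) (v : ι → ℂ → ℂ), Differentiable ℂ q ∧ q 0 = 1 ∧ (∀ j, Differentiable ℂ (v j)) ∧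
      (∀ j z, u j z = q z * v j z) ∧ ∀ z, ‖z‖ ≤ ρ → ∃ j, v j z ≠ 0 := by
  obtain ⟨Z, v, hv, hfac, hZ, hne⟩ := factor_tuple u hu j0 h0 hρ
  have hP : P Z 0 ≠ 0 := fun h => h0 (by rw [hfac, h, zero_mul])
  refine ⟨fun z => (P Z 0)⁻¹ * P Z z, fun j z => P Z 0 * v j z, (P_diff Z).const_mul _,
    inv_mul_cancel₀ hP, fun j => (hv j).const_mul _, ?_, ?_⟩
  · intro j z
    rw [hfac]
    field_simp
  · intro z hz
    obtain ⟨j, hj⟩ := hne z hz
    exact ⟨j, mul_ne_zero hP hj⟩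

end Pool.Agent.H159R3.NV
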