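import Pool.Agent.H159R3.NV.Growth

/-!
`N`-th powers of pairwise non-proportional entire functions are linearly independent for large `N`.
-/

set_option autoImplicit false

namespace Pool.Agent.H159R3.NV

open Filter Metric Real Set Topology

theorem ev_ne {f : ℂ → ℂ} (hf : Differentiable ℂ f) {x : ℂ} (hx : f x ≠ 0) (z0 : ℂ) :
    ∀ᶠ z in 𝓝[≠] z0, f z ≠ 0 := by
  rcases AnalyticOnNhd.eqOn_zero_or_eventually_ne_zero_of_preconnected
    (f := f) (U := Set.univ) (fun z _ => hf.analyticAt z) isPreconnected_univ with h | h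
  · exact absurd (h (mem_univ x)) hx
  · have h2 := (mem_codiscreteWithin_iff_forall_mem_nhdsNE.1 h) z0 (mem_univ _)
    filter_upwards [h2] with z hz
    rcases hz with hz | hz
    · exact hz
    · exact absurd (mem_univ z) hz

/-- an entire function vanishing off the origin vanishes identically -/
theorem zero_of_punctured {f : ℂ → ℂ} (hf : Differentiable ℂ f) (h : ∀ w, w ≠ 0 → f w = 0) :
    ∀ w, f w = 0 := by
  by_contra hcon
  push Not at hcon
  obtain ⟨x, hx⟩ := hcon
  have h1 := ev_ne hf hx 0
  have h2 : ∀ᶠ z in 𝓝[≠] (0 : ℂ), False := by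
    filter_upwards [h1, self_mem_nhdsWithin] with z hz hz0
    exact hz (h z hz0)
  exact (Filter.eventually_const.mp h2)

theorem at_core {m N : ℕ} (hm : 1 ≤ m) (hN : m ^ 2 ≤ N) (H : Fin (m + 1) → ℂ → ℂ)
    (hH : ∀ j, Differentiable ℂ (H j)) (hs : ∀ z, ∑ j, H j z ^ N = 0)
    (hne : ∀ j, ∃ z, H j z ≠ 0) (j1 : Fin (m + 1))
    (hprop : ∀ c : ℂ, ∃ z, H j1 z - c * H 0 z ≠ 0)
    (hind : ∀ c : Fin m → ℂ, (∀ z, ∑ b, c b * H b.succ z ^ N = 0) → c = 0) : False := by
  -- pull back by the exponential
  let E : Fin (m + 1) → ℂ → ℂ := fun j z => H j (Complex.exp z)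
  have hE : ∀ j, Differentiable ℂ (E j) := fun j => (hH j).comp Complex.differentiable_exp
  have lift : ∀ f : ℂ → ℂ, Differentiable ℂ f → (∃ z, f z ≠ 0) → ∃ z, f (Complex.exp z) ≠ 0 := by
    intro f hf hz
    by_contra hcon
    push Not at hcon
    obtain ⟨z, hz⟩ := hz
    apply hz
    apply zero_of_punctured hf
    intro w hw
    rw [← Complex.exp_log hw]
    exact hcon _
  have hEne : ∀ j, ∃ z, E j z ≠ 0 := fun j => lift _ (hH j) (hne j)
  obtain ⟨z1, hz1⟩ := hEne 0
  set w0 : ℂ := Complex.exp z1 with hw0
  have hw0H : H 0 w0 ≠ 0 := hz1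
  set c : ℂ := H j1 w0 / H 0 w0 with hc
  have hcz : H j1 w0 - c * H 0 w0 = 0 := by rw [hc]; field_simp; ring
  have hgd : Differentiable ℂ (fun z => H j1 z - c * H 0 z) := (hH j1).sub ((hH 0).const_mul c)
  obtain ⟨zg, hzg⟩ := lift _ hgd (hprop c)
  have hgEd : Differentiable ℂ (fun z => E j1 z - c * E 0 z) := (hE j1).sub ((hE 0).const_mul c)
  -- the Wronskian
  have hwr : ∃ z, wr N E 0 z ≠ 0 := by
    obtain ⟨z, hz⟩ := wron_ne (fun b : Fin m => fun z => E b.succ z ^ N)
      (fun b => (hE b.succ).pow N) (by
        intro a ha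
        apply hind
        have hd : Differentiable ℂ (fun z => ∑ b, a b * H b.succ z ^ N) :=
          Differentiable.fun_sum fun b _ => ((hH b.succ).pow N).const_mul _
        apply zero_of_punctured hd
        intro w hw
        have := ha (Complex.log w)
        simp only [E, Complex.exp_log hw] at this
        exact this)
    refine ⟨z, ?_⟩
    unfold wr
    simpa only [Fin.succAbove_zero] using hz
  obtain ⟨zw, hzw⟩ := hwr
  -- a base point where nothing vanishes
  have hev : ∀ᶠ z in 𝓝[≠] (0 : ℂ), (∀ j, E j z ≠ 0) ∧ wr N E 0 z ≠ 0 ∧ E j1 z - c * E 0 z ≠ 0 := by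
    refine Filter.Eventually.and ?_ (Filter.Eventually.and ?_ ?_)
    · rw [Filter.eventually_all]
      intro j
      obtain ⟨z, hz⟩ := hEne j
      exact ev_ne (hE j) hz 0
    · exact ev_ne (wr_diff N E hE 0) hzw 0
    · exact ev_ne hgEd (x := zg) hzg 0
  obtain ⟨z0, hz0, hz0w, hz0g⟩ := hev.exists
  let U : Fin (m + 1) → ℂ → ℂ := fun j z => E j (z + z0)
  have hU : ∀ j, Differentiable ℂ (U j) := fun j => (hE j).comp (differentiable_id.add_const z0)
  have hUw : wr N U 0 0 ≠ 0 := by
    have : wr N U 0 0 = wr N E 0 z0 := by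
      unfold wr
      congr 1
      ext b l
      simp only [Matrix.of_apply, U]
      have h1 := iteratedDeriv_comp_add_const (n := (l : ℕ))
        (f := fun w => E (Fin.succAbove 0 b) w ^ N) (s := z0)
      have h2 := congrFun h1 0
      simp only [zero_add] at h2
      exact h2
    rw [this]
    exact hz0w
  obtain ⟨K1, K2, hK2, hK⟩ := zeros_log hm hN U hU (fun z => hs _)
    (fun j => by simpa [U] using hz0 j) hUw j1 c (by simpa [U] using hz0g)
  -- the zeros
  set ζ : ℂ := z1 - z0 with hζ
  let a : ℕ → ℂ := fun k => ζ + k * (2 * π * Complex.I)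
  have hainj : Function.Injective a := by
    intro k k' h
    simp only [a] at h
    have h1 : (k : ℂ) * (2 * π * Complex.I) = k' * (2 * π * Complex.I) := add_left_cancel h
    have h2 := mul_right_cancel₀ Complex.two_pi_I_ne_zero h1
    exact_mod_cast h2
  have hexp : ∀ k : ℕ, Complex.exp (a k + z0) = w0 := by
    intro k
    have : a k + z0 = z1 + k * (2 * π * Complex.I) := by
      simp only [a, hζ]; ring
    rw [this, Complex.exp_add, Complex.exp_nat_mul_two_pi_mul_I, mul_one]
  have hp : ∀ p : ℕ, (p : ℝ) * Real.log 2 ≤ K1 + K2 * Real.log (2 * (‖ζ‖ + 7 * p + 1) + 3) := by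
    intro p
    have h1 := hK ((List.range p).map a) (‖ζ‖ + 7 * p + 1) (by
        have : 0 ≤ ‖ζ‖ := norm_nonneg _
        have : (0 : ℝ) ≤ p := Nat.cast_nonneg p
        linarith)
      (List.nodup_range.map hainj) (by
        intro x hx
        obtain ⟨k, hk, rfl⟩ := List.mem_map.mp hx
        have hkp : k < p := List.mem_range.mp hk
        refine ⟨?_, ?_, ?_⟩
        · simp only [U, E, hexp]
          exact hcz
        · simp only [U, E, hexp]
          exact hw0H
        · simp only [a]
          refine (norm_add_le _ _).trans ?_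
          have h2 : ‖(k : ℂ) * (2 * π * Complex.I)‖ = k * (2 * π) := by
            rw [norm_mul, norm_mul, norm_mul, Complex.norm_natCast, Complex.norm_I,
              Complex.norm_real, Real.norm_of_nonneg Real.pi_pos.le]
            simp
          rw [h2]
          have h3 : (k : ℝ) ≤ p := by exact_mod_cast hkp.le
          have h4 : 2 * π ≤ 7 := by have := Real.pi_lt_d2; linarith
          have h5 : (k : ℝ) * (2 * π) ≤ p * 7 :=
            mul_le_mul h3 h4 (by positivity) (Nat.cast_nonneg p)
          linarith)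
    simpa using h1
  -- contradiction for large `p`
  set σ : ℝ := 56 * (K2 + 1) with hσ
  have hσpos : 0 < σ := by positivity
  have hlog2 : (1 : ℝ) / 2 < Real.log 2 := by
    have := Real.log_two_gt_d9; linarith
  obtain ⟨p, hpp⟩ := exists_nat_gt (4 * (K1 + K2 * ((2 * ‖ζ‖ + 5) / σ) + K2 * Real.log σ))
  have h1 := hp p
  have hpn : (0 : ℝ) ≤ p := Nat.cast_nonneg p
  set X : ℝ := 2 * (‖ζ‖ + 7 * p + 1) + 3 with hX
  have hXpos : 0 < X := by
    have : 0 ≤ ‖ζ‖ := norm_nonneg _
    rw [hX]; linarith
  have h2 : Real.log X ≤ X / σ + Real.log σ := by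
    have h3 : Real.log X = Real.log (X / σ) + Real.log σ := by
      rw [Real.log_div hXpos.ne' hσpos.ne']; ring
    have h4 := Real.log_le_sub_one_of_pos (div_pos hXpos hσpos)
    linarith
  have h5 : K2 * Real.log X ≤ K2 * (X / σ + Real.log σ) := mul_le_mul_of_nonneg_left h2 hK2
  have h6 : K2 * (X / σ) ≤ K2 * ((2 * ‖ζ‖ + 5) / σ) + p / 4 := by
    have e : K2 * (X / σ) = K2 * ((2 * ‖ζ‖ + 5) / σ) + (K2 / (K2 + 1)) * (p / 4) := by
      rw [hX, hσ]
      field_simp
      ring
    rw [e]
    have : K2 / (K2 + 1) ≤ 1 := by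
      rw [div_le_one (by linarith)]; linarith
    have := mul_le_mul_of_nonneg_right this (show 0 ≤ (p : ℝ) / 4 by positivity)
    linarith
  have h7 : (p : ℝ) * (1 / 2) ≤ p * Real.log 2 := mul_le_mul_of_nonneg_left hlog2.le hpn
  nlinarith

/-- `N`-th powers of pairwise non-proportional entire functions are linearly independent. -/
theorem powers_independent {s N : ℕ} (hN : (s - 1) ^ 2 ≤ N) {ι : Type} [DecidableEq ι]
    (h : ι → ℂ → ℂ) (hd : ∀ i, Differentiable ℂ (h i)) :
    ∀ (S : Finset ι), S.card ≤ s → (∀ i ∈ S, ∃ z, h i z ≠ 0) →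
      (∀ i ∈ S, ∀ j ∈ S, i ≠ j → ∀ c : ℂ, ∃ z, h i z - c * h j z ≠ 0) →
      ∀ c : ι → ℂ, (∀ z, ∑ i ∈ S, c i * h i z ^ N = 0) → ∀ i ∈ S, c i = 0 := by
  intro S
  induction S using Finset.strongInduction with
  | H S ih =>
    intro hS hne hprop c hc
    by_contra hcon
    push Not at hcon
    obtain ⟨i0, hi0, hci0⟩ := hcon
    -- all coefficients are nonzero
    have hall : ∀ i ∈ S, c i ≠ 0 := by
      intro i hi hci
      have h1 := ih (S.erase i) (Finset.erase_ssubset hi)
        ((Finset.card_le_card (Finset.erase_subset _ _)).trans hS)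
        (fun j hj => hne j (Finset.mem_of_mem_erase hj))
        (fun j hj k hk => hprop j (Finset.mem_of_mem_erase hj) k (Finset.mem_of_mem_erase hk))
        c (by
          intro z
          have h2 := hc z
          rw [← Finset.add_sum_erase S _ hi, hci, zero_mul, zero_add] at h2
          exact h2)
      by_cases hii : i0 = i
      · rw [hii] at hci0; exact hci0 hci
      · exact hci0 (h1 i0 (Finset.mem_erase.mpr ⟨hii, hi0⟩))
    obtain ⟨m, hm⟩ : ∃ m, S.card = m + 1 :=
      ⟨S.card - 1, by have := Finset.card_pos.mpr ⟨i0, hi0⟩; omega⟩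
    rcases Nat.eq_zero_or_pos m with hm0 | hmpos
    · -- a single term
      rw [hm0] at hm
      obtain ⟨j, hj⟩ := Finset.card_eq_one.mp hm
      have hjS : j ∈ S := by rw [hj]; exact Finset.mem_singleton_self j
      obtain ⟨z, hz⟩ := hne j hjS
      have h1 := hc z
      rw [hj, Finset.sum_singleton] at h1
      exact mul_ne_zero (hall j hjS) (pow_ne_zero N hz) h1
    · have hms : m ≤ s - 1 := by omega
      have hmN : m ^ 2 ≤ N := (Nat.pow_le_pow_left hms 2).trans hN
      have hN0 : 0 < N := lt_of_lt_of_le (by positivity) hmN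
      let e : Fin (m + 1) ≃ S := (Finset.equivFinOfCardEq hm).symm
      have hroot : ∀ i : ι, ∃ d : ℂ, d ^ N = c i := fun i => IsAlgClosed.exists_pow_nat_eq (c i) hN0
      choose d hdr using hroot
      have hd0 : ∀ i ∈ S, d i ≠ 0 := by
        intro i hi h0
        apply hall i hi
        rw [← hdr i, h0, zero_pow hN0.ne']
      let H : Fin (m + 1) → ℂ → ℂ := fun j z => d (e j) * h (e j) z
      have hHN : ∀ j z, H j z ^ N = c (e j) * h (e j) z ^ N := by
        intro j z
        simp only [H]
        rw [mul_pow, hdr]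
      have hsumH : ∀ (f : ι → ℂ), ∑ j, f (e j) = ∑ i ∈ S, f i := by
        intro f
        rw [← Finset.sum_coe_sort S f]
        exact Equiv.sum_comp e (fun i : S => f i)
      have hlast : (Fin.last m : Fin (m + 1)) ≠ 0 := by
        intro h0
        have := congrArg Fin.val h0
        simp only [Fin.val_last, Fin.val_zero] at this
        omega
      refine at_core hmpos hmN H (fun j => (hd _).const_mul _) ?_ ?_ (Fin.last m) ?_ ?_
      · intro z
        simp only [hHN]
        rw [hsumH (fun i => c i * h i z ^ N)]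
        exact hc z
      · intro j
        obtain ⟨z, hz⟩ := hne (e j) (e j).2
        exact ⟨z, mul_ne_zero (hd0 _ (e j).2) hz⟩
      · intro a
        have hne' : ((e (Fin.last m) : S) : ι) ≠ ((e 0 : S) : ι) := by
          intro h0
          exact hlast (e.injective (Subtype.ext h0))
        have hdl := hd0 _ (e (Fin.last m)).2
        obtain ⟨z, hz⟩ := hprop _ (e (Fin.last m)).2 _ (e 0).2 hne'
          (a * d (e 0) / d (e (Fin.last m)))
        refine ⟨z, ?_⟩
        intro h0
        apply hz
        simp only [H] at h0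
        have h1 : d (e (Fin.last m)) * (h (e (Fin.last m)) z
            - a * d (e 0) / d (e (Fin.last m)) * h (e 0) z) = 0 := by
          rw [← h0]
          field_simp
        exact (mul_eq_zero.mp h1).resolve_left hdl
      · intro b hb
        -- a relation between the functions with index in `S.erase (e 0)`
        have h0mem : ((e 0 : S) : ι) ∈ S := (e 0).2
        let f : ι → ℂ := fun i => if hi : i ∈ S then
          (if h2 : (e.symm ⟨i, hi⟩) = 0 then 0 else b ((e.symm ⟨i, hi⟩).pred h2) * c i) else 0
        have hf0 : f (e 0) = 0 := by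
          simp only [f]
          rw [dif_pos h0mem]
          rw [dif_pos]
          simp
        have hfs : ∀ j : Fin m, f (e j.succ) = b j * c (e j.succ) := by
          intro j
          simp only [f]
          rw [dif_pos (e j.succ).2]
          have h3 : e.symm ⟨(e j.succ : ι), (e j.succ).2⟩ = j.succ := by simp
          have h4 : ¬ e.symm ⟨(e j.succ : ι), (e j.succ).2⟩ = 0 := by
            rw [h3]; exact Fin.succ_ne_zero j
          rw [dif_neg h4]
          congr 2
          apply Fin.succ_injective
          rw [Fin.succ_pred, h3]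
        have h1 := ih (S.erase (e 0)) (Finset.erase_ssubset h0mem)
          ((Finset.card_le_card (Finset.erase_subset _ _)).trans hS)
          (fun j hj => hne j (Finset.mem_of_mem_erase hj))
          (fun j hj k hk => hprop j (Finset.mem_of_mem_erase hj) k (Finset.mem_of_mem_erase hk))
          f (by
            intro z
            have h2 := hb z
            have h3 : ∑ i ∈ S, f i * h i z ^ N = 0 := by
              rw [← hsumH (fun i => f i * h i z ^ N), Fin.sum_univ_succ, hf0, zero_mul, zero_add,
                ← h2]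
              refine Finset.sum_congr rfl fun j _ => ?_
              rw [hfs, hHN]; ring
            rw [← Finset.add_sum_erase S _ h0mem, hf0, zero_mul, zero_add] at h3
            exact h3)
        funext j
        have hjmem : ((e j.succ : S) : ι) ∈ S.erase (e 0) := by
          rw [Finset.mem_erase]
          refine ⟨?_, (e j.succ).2⟩
          intro h2
          exact Fin.succ_ne_zero j (e.injective (Subtype.ext h2))
        have h2 := h1 _ hjmem
        rw [hfs] at h2
        exact (mul_eq_zero.mp h2).resolve_right (hall _ (e j.succ).2)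

end Pool.Agent.H159R3.NV
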