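import Pool.Agent.H159R3.NV.StepC

/-!
The growth lemma and the contradiction with too many zeros.
-/

set_option autoImplicit false

namespace Pool.Agent.H159R3.NV

open Filter Metric Real Set Topology

theorem growth (S : ℝ → ℝ) (B c r0 M : ℝ) (hB : 0 ≤ B) (hc : 0 ≤ c) (hr0 : 1 ≤ r0)
    (hM : ∀ r, r0 ≤ r → r ≤ r0 + 3 → S r ≤ M)
    (hrec : ∀ r δ, r0 ≤ r → 0 < δ → δ ≤ 1 → r + 4 * δ ≤ r0 + 3 →
      S r ≤ B + c * Real.log (1000 * (r + 4 * δ) ^ 3 * (S (r + 4 * δ) + 1) ^ 2 / δ ^ 4))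
    (hpos : ∀ r, r0 ≤ r → 0 ≤ S r) :
    S r0 ≤ 1 + 2 * B + 2 * c * (7 + 3 * Real.log (r0 + 3)) + 576 * c ^ 2 := by
  by_contra hcon
  push Not at hcon
  set t0 : ℝ := 1 + 2 * B + 2 * c * (7 + 3 * Real.log (r0 + 3)) + 576 * c ^ 2 with ht0
  have hlog0 : 0 ≤ Real.log (r0 + 3) := Real.log_nonneg (by linarith)
  have ht01 : 1 ≤ t0 := by
    have : 0 ≤ 2 * c * (7 + 3 * Real.log (r0 + 3)) := by positivity
    nlinarith [sq_nonneg c]
  have step : ∀ r, r0 ≤ r → t0 ≤ S r → r + 1 / S r ≤ r0 + 3 → 2 * S r ≤ S (r + 1 / S r) := by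
    intro r hr hSr hr3
    by_contra hlt
    push Not at hlt
    set t := S r with ht
    have ht1 : 1 ≤ t := ht01.trans hSr
    have htpos : 0 < t := by linarith
    have hδ : 0 < 1 / (4 * t) := by positivity
    have e4 : r + 4 * (1 / (4 * t)) = r + 1 / t := by field_simp
    have h1 := hrec r (1 / (4 * t)) hr hδ (by
      rw [div_le_one (by positivity)]; linarith) (by rw [e4]; exact hr3)
    rw [e4] at h1
    have hinv : 0 < 1 / t := by positivity
    have hS2 : 0 ≤ S (r + 1 / t) := hpos _ (by linarith)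
    have hRpos : 0 < r + 1 / t := by linarith
    have e5 : 1000 * (r + 1 / t) ^ 3 * (S (r + 1 / t) + 1) ^ 2 / (1 / (4 * t)) ^ 4
        = 1000 * (r + 1 / t) ^ 3 * (S (r + 1 / t) + 1) ^ 2 * (4 * t) ^ 4 := by
      field_simp
    rw [e5] at h1
    have h2 : Real.log (1000 * (r + 1 / t) ^ 3 * (S (r + 1 / t) + 1) ^ 2 * (4 * t) ^ 4)
        ≤ 7 + 3 * Real.log (r0 + 3) + 6 * Real.log (4 * t) := by
      have a1 : (1000 : ℝ) * (r + 1 / t) ^ 3 ≠ 0 := by positivity
      have a2 : (S (r + 1 / t) + 1) ^ 2 ≠ 0 := by positivity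
      have a3 : (4 * t) ^ 4 ≠ 0 := by positivity
      rw [Real.log_mul (mul_ne_zero a1 a2) a3, Real.log_mul a1 a2,
        Real.log_mul (by norm_num) (by positivity), Real.log_pow, Real.log_pow, Real.log_pow]
      have b1 : Real.log 1000 ≤ 7 := by
        have : (1000 : ℝ) ≤ Real.exp 7 := by
          have h7 : (2.7 : ℝ) ^ 7 ≤ Real.exp 7 := by
            have : Real.exp 7 = (Real.exp 1) ^ 7 := by rw [← Real.exp_nat_mul]; norm_num
            rw [this]
            exact pow_le_pow_left₀ (by norm_num) (by have := Real.exp_one_gt_d9; linarith) 7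
          refine le_trans (by norm_num) h7
        rw [Real.log_le_iff_le_exp (by norm_num)]
        exact this
      have b2 : Real.log (r + 1 / t) ≤ Real.log (r0 + 3) := Real.log_le_log hRpos hr3
      have b3 : Real.log (S (r + 1 / t) + 1) ≤ Real.log (4 * t) :=
        Real.log_le_log (by linarith) (by linarith)
      push_cast
      linarith
    have h3 : Real.log (4 * t) ≤ 4 * Real.sqrt t := by
      have hs : 0 < Real.sqrt t := Real.sqrt_pos.mpr htpos
      have e6 : 4 * t = (2 * Real.sqrt t) ^ 2 := by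
        rw [mul_pow, Real.sq_sqrt htpos.le]; ring
      rw [e6, Real.log_pow]
      have := Real.log_le_sub_one_of_pos (show 0 < 2 * Real.sqrt t by positivity)
      push_cast
      linarith
    have h4 : t ≤ B + c * (7 + 3 * Real.log (r0 + 3) + 24 * Real.sqrt t) := by
      refine h1.trans ?_
      have : c * Real.log (1000 * (r + 1 / t) ^ 3 * (S (r + 1 / t) + 1) ^ 2 * (4 * t) ^ 4)
          ≤ c * (7 + 3 * Real.log (r0 + 3) + 24 * Real.sqrt t) :=
        mul_le_mul_of_nonneg_left (by linarith) hc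
      linarith
    have h5 : c * (24 * Real.sqrt t) ≤ t / 2 + 288 * c ^ 2 := by
      have hs2 : Real.sqrt t ^ 2 = t := Real.sq_sqrt htpos.le
      nlinarith [sq_nonneg (Real.sqrt t - 24 * c)]
    have h6 : t ≤ 2 * B + 2 * c * (7 + 3 * Real.log (r0 + 3)) + 576 * c ^ 2 := by nlinarith
    linarith
  have iter : ∀ n : ℕ, ∃ r, r0 ≤ r ∧ r ≤ r0 + 2 - 2 * (1 / 2) ^ n ∧ 2 ^ n * t0 ≤ S r := by
    intro n
    induction n with
    | zero => exact ⟨r0, le_rfl, by norm_num, by simpa using hcon.le⟩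
    | succ n ih =>
      obtain ⟨r, h1, h2, h3⟩ := ih
      have hp : (1 : ℝ) ≤ 2 ^ n := one_le_pow₀ (by norm_num)
      have h4 : t0 ≤ S r := by nlinarith
      have hSpos : 0 < S r := by linarith
      have h5 : 1 / S r ≤ (1 / 2) ^ n := by
        rw [one_div_pow]
        apply one_div_le_one_div_of_le (by positivity)
        nlinarith
      have h6 : r + 1 / S r ≤ r0 + 2 - 2 * (1 / 2) ^ (n + 1) := by
        have : (2 : ℝ) * (1 / 2) ^ (n + 1) = (1 / 2) ^ n := by rw [pow_succ]; ring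
        rw [this]; linarith
      have hq : (0 : ℝ) < (1 / 2) ^ (n + 1) := by positivity
      have h7 := step r h1 h4 (by linarith)
      refine ⟨r + 1 / S r, ?_, h6, ?_⟩
      · have : 0 < 1 / S r := by positivity
        linarith
      · rw [pow_succ]; nlinarith
  obtain ⟨n, hn⟩ := pow_unbounded_of_one_lt M (by norm_num : (1 : ℝ) < 2)
  obtain ⟨r, h1, h2, h3⟩ := iter n
  have hq : (0 : ℝ) < (1 / 2) ^ n := by positivity
  have h4 := hM r h1 (by linarith)
  have h5 : (2 : ℝ) ^ n ≤ 2 ^ n * t0 := le_mul_of_one_le_right (by positivity) ht01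
  linarith

theorem L_comb {f g : ℂ → ℂ} (hf : Differentiable ℂ f) (hg : Differentiable ℂ g) {x : ℂ}
    (hx : f x ≠ 0) (c : ℂ) {y : ℂ} (hy : g y - c * f y ≠ 0) {R : ℝ} (hR : R ≠ 0) :
    L (fun z => g z - c * f z) R ≤ T2 f g R + Real.log (1 + ‖c‖) := by
  have hd : Differentiable ℂ (fun z => g z - c * f z) := hg.sub (hf.const_mul c)
  have i1 := ci_log (mero_of_diff hf) R
  have i2 := ci_posLog (quot_mero hf hg) R
  have i12 : CircleIntegrable (fun z => Real.log ‖f z‖ + Real.posLog ‖g z / f z‖) 0 R := i1.add i2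
  have e : T2 f g R + Real.log (1 + ‖c‖) = Real.circleAverage
      (fun z => (Real.log ‖f z‖ + Real.posLog ‖g z / f z‖) + Real.log (1 + ‖c‖)) 0 R := by
    rw [Real.circleAverage_fun_add i12 (circleIntegrable_const _ _ _),
      Real.circleAverage_fun_add i1 i2, Real.circleAverage_const]
    rfl
  rw [e]
  apply avg_le_cod (ci_log (mero_of_diff hd) R) (i12.add (circleIntegrable_const _ _ _)) hR
  filter_upwards [ne_cod hf hx R, ne_cod hd hy R] with z h1 h2
  change Real.log ‖g z - c * f z‖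
    ≤ (Real.log ‖f z‖ + Real.posLog ‖g z / f z‖) + Real.log (1 + ‖c‖)
  have p1 : 0 < ‖f z‖ := norm_pos_iff.mpr h1
  have p2 : 0 < ‖g z - c * f z‖ := norm_pos_iff.mpr h2
  rw [Real.posLog_eq_log_max_one (norm_nonneg _)]
  have p3 : 0 < max 1 ‖g z / f z‖ := lt_of_lt_of_le one_pos (le_max_left _ _)
  have p4 : 0 < 1 + ‖c‖ := by positivity
  rw [← Real.log_mul p1.ne' p3.ne', ← Real.log_mul (by positivity) p4.ne']
  apply Real.log_le_log p2
  have h3 : ‖g z‖ = ‖f z‖ * ‖g z / f z‖ := by rw [norm_div]; field_simp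
  have h4 : ‖g z / f z‖ ≤ max 1 ‖g z / f z‖ := le_max_right _ _
  have h5 : (1 : ℝ) ≤ max 1 ‖g z / f z‖ := le_max_left _ _
  calc ‖g z - c * f z‖ ≤ ‖g z‖ + ‖c * f z‖ := norm_sub_le _ _
    _ = ‖f z‖ * ‖g z / f z‖ + ‖c‖ * ‖f z‖ := by rw [norm_mul, h3]
    _ ≤ ‖f z‖ * max 1 ‖g z / f z‖ + ‖c‖ * (‖f z‖ * max 1 ‖g z / f z‖) := by
      have a1 : ‖f z‖ * ‖g z / f z‖ ≤ ‖f z‖ * max 1 ‖g z / f z‖ :=
        mul_le_mul_of_nonneg_left h4 p1.le
      have a2 : ‖f z‖ ≤ ‖f z‖ * max 1 ‖g z / f z‖ := le_mul_of_one_le_right p1.le h5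
      have a3 := mul_le_mul_of_nonneg_left a2 (norm_nonneg c)
      linarith
    _ = _ := by ring

theorem distinct_fac (A : List ℂ) (hA : A.Nodup) (f : ℂ → ℂ) (hf : Differentiable ℂ f)
    (hz : ∀ a ∈ A, f a = 0) :
    ∃ k : ℂ → ℂ, Differentiable ℂ k ∧ ∀ z, f z = P A z * k z := by
  induction A generalizing f with
  | nil => exact ⟨f, hf, fun z => by rw [P_nil, one_mul]⟩
  | cons a A ih =>
    have ha := hz a List.mem_cons_self
    have hA' := List.nodup_cons.mp hA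
    obtain ⟨k, hk, he⟩ := ih hA'.2 (dslope f a) (dslope_diff hf a) (by
      intro b hb
      have hb0 := hz b (List.mem_cons_of_mem _ hb)
      rw [dslope_fac ha b] at hb0
      rcases mul_eq_zero.mp hb0 with h | h
      · exact absurd hb (by rw [sub_eq_zero.mp h]; exact hA'.1)
      · exact h)
    exact ⟨k, hk, fun z => by rw [dslope_fac ha z, he z, P_cons]; ring⟩

/-- the number of zeros grows at most logarithmically -/
theorem zeros_log {m N : ℕ} (hm : 1 ≤ m) (hN : m ^ 2 ≤ N) (U : Fin (m + 1) → ℂ → ℂ)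
    (hU : ∀ j, Differentiable ℂ (U j)) (hs : ∀ z, ∑ j, U j z ^ N = 0) (hU0 : ∀ j, U j 0 ≠ 0)
    (hW : wr N U 0 0 ≠ 0) (j1 : Fin (m + 1)) (c : ℂ) (hg0 : U j1 0 - c * U 0 0 ≠ 0) :
    ∃ K1 K2 : ℝ, 0 ≤ K2 ∧ ∀ (A : List ℂ) (ρ : ℝ), 1 ≤ ρ → A.Nodup →
      (∀ a ∈ A, U j1 a - c * U 0 a = 0 ∧ U 0 a ≠ 0 ∧ ‖a‖ ≤ ρ) →
      (A.length : ℝ) * Real.log 2 ≤ K1 + K2 * Real.log (2 * ρ + 3) := by
  set Λ : ℝ := ∑ j, |Real.log ‖U j 0‖| + |Real.log ‖wr N U 0 0‖| with hΛdef
  have hΛ0 : 0 ≤ Λ := by positivity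
  set a0 : ℝ := (m + 1) * (Real.log (Nat.factorial m) + m * (Real.log (Nat.factorial m) + N)
    + (1 + (N + 1) * (m + 1)) * Λ + (N + 1) * Λ) with ha0
  have hlf : 0 ≤ Real.log (Nat.factorial m) :=
    Real.log_nonneg (by exact_mod_cast Nat.one_le_iff_ne_zero.mpr (Nat.factorial_ne_zero m))
  have ha0' : 0 ≤ a0 := by positivity
  set c0 : ℝ := (m + 1) * m ^ 2 with hc0
  have hc0' : 0 ≤ c0 := by positivity
  refine ⟨1 + 2 * a0 + 2 * c0 * 7 + 576 * c0 ^ 2 + Real.log (1 + ‖c‖)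
    - Real.log ‖U j1 0 - c * U 0 0‖, 2 * c0 * 3, by positivity, ?_⟩
  intro A ρ hρ hA hAz
  have hρ0 : 0 < ρ := by linarith
  obtain ⟨q, v, hq, hq0, hv, hfac, hcz⟩ := common_zeros U hU 0 (hU0 0)
    (show 0 < 2 * ρ + 3 by linarith)
  have hv0 : ∀ j, v j 0 = U j 0 := fun j => by rw [hfac j 0, hq0, one_mul]
  have hsv : ∀ z, ∑ j, v j z ^ N = 0 := by
    have h1 : Differentiable ℂ (fun z => ∑ j, v j z ^ N) :=
      Differentiable.fun_sum fun j _ => (hv j).pow N
    have h2 : ∀ z, (fun z => q z ^ N) z * (fun z => ∑ j, v j z ^ N) z = 0 := by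
      intro z
      change q z ^ N * ∑ j, v j z ^ N = 0
      rw [← hs z, Finset.mul_sum]
      exact Finset.sum_congr rfl fun j _ => by rw [hfac j z, mul_pow]
    rcases ent_eq_zero_or (hq.pow N) h1 h2 with h | h
    · exfalso
      have h3 : q 0 ^ N = 0 := congrFun h 0
      rw [hq0, one_pow] at h3
      exact one_ne_zero h3
    · exact fun z => congrFun h z
  have hWv : wr N v 0 0 = wr N U 0 0 := by
    have h1 := wr_scale N q hq v hv 0 0
    rw [hq0, one_pow, one_mul] at h1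
    rw [← h1]
    have : (fun j w => q w * v j w) = U := by
      funext j w
      exact (hfac j w).symm
    rw [this]
  have hsys : Sys m N v Λ (2 * ρ + 3) := by
    refine ⟨hv, fun j => by rw [hv0]; exact hU0 j, hsv, by rw [hWv]; exact hW, hΛ0, ?_, ?_, hcz⟩
    · intro j
      rw [hv0, hΛdef]
      have h1 := Finset.single_le_sum (f := fun j => |Real.log ‖U j 0‖|)
        (fun i _ => abs_nonneg _) (Finset.mem_univ j)
      have h2 := abs_nonneg (Real.log ‖wr N U 0 0‖)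
      linarith
    · rw [hWv, hΛdef]
      have h1 : 0 ≤ ∑ j, |Real.log ‖U j 0‖| := Finset.sum_nonneg fun i _ => abs_nonneg _
      have h2 := neg_abs_le (Real.log ‖wr N U 0 0‖)
      linarith
  have hgrow := growth (SS v Λ) a0 c0 (2 * ρ) (SS v Λ (2 * ρ + 3)) ha0' hc0' (by linarith)
    (fun r h1 h2 => hsys.SS_mono (by linarith) h2)
    (by
      intro r δ h1 h2 h3 h4
      have := hsys.recur hm hN (by linarith : 1 ≤ r) h2 h3 h4
      refine this.trans (le_of_eq ?_)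
      rw [ha0, hc0]
      ring)
    (fun r h1 => hsys.SS_nonneg (by linarith))
  -- the auxiliary function
  have hgd : Differentiable ℂ (fun z => v j1 z - c * v 0 z) := (hv j1).sub ((hv 0).const_mul c)
  have hgz : ∀ a ∈ A, v j1 a - c * v 0 a = 0 := by
    intro a ha
    obtain ⟨h1, h2, _⟩ := hAz a ha
    rw [hfac] at h2
    have hqa : q a ≠ 0 := left_ne_zero_of_mul h2
    rw [hfac j1, hfac 0] at h1
    have h3 : q a * (v j1 a - c * v 0 a) = 0 := by linear_combination h1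
    exact (mul_eq_zero.mp h3).resolve_left hqa
  obtain ⟨k, hk, hke⟩ := distinct_fac A hA _ hgd hgz
  have hg0' : v j1 0 - c * v 0 0 ≠ 0 := by rw [hv0, hv0]; exact hg0
  have hcnt := count_le A k hk hρ0 (R := 2 * ρ) (by linarith) (fun a ha => (hAz a ha).2.2)
    (by rw [← hke]; exact hg0')
  have e1 : (fun z => P A z * k z) = fun z => v j1 z - c * v 0 z := funext fun z => (hke z).symm
  have e2 : 2 * ρ / ρ = 2 := by field_simp
  rw [← hke, e1, e2, hv0, hv0] at hcnt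
  have hcomb := L_comb (hv 0) (hv j1) (x := 0) (by rw [hv0]; exact hU0 0) c hg0'
    (R := 2 * ρ) (by linarith)
  have hterm := hsys.term_le j1 (R := 2 * ρ) (by linarith)
  have h9 : (A.length : ℝ) * Real.log 2 ≤ SS v Λ (2 * ρ) + Real.log (1 + ‖c‖)
      - Real.log ‖U j1 0 - c * U 0 0‖ := by linarith
  linarith

end Pool.Agent.H159R3.NV
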