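import Mathlib

/-!
Circle averages of logarithms of entire functions.
-/

set_option autoImplicit false

namespace Pool.Agent.H159R3.NV

open Filter Metric Real Set Topology MeromorphicOn

/-- mean of `log ‖f‖` on the circle of radius `R` -/
noncomputable def L (f : ℂ → ℂ) (R : ℝ) : ℝ := Real.circleAverage (fun z => Real.log ‖f z‖) 0 R

theorem mero_of_diff {f : ℂ → ℂ} (hf : Differentiable ℂ f) : Meromorphic f :=
  fun z => (hf.analyticAt z).meromorphicAt

theorem ci_log {f : ℂ → ℂ} (hf : Meromorphic f) (R : ℝ) :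
    CircleIntegrable (fun z => Real.log ‖f z‖) 0 R :=
  MeromorphicOn.circleIntegrable_log_norm (fun z _ => hf z)

theorem ci_posLog {f : ℂ → ℂ} (hf : Meromorphic f) (R : ℝ) :
    CircleIntegrable (fun z => Real.posLog ‖f z‖) 0 R :=
  MeromorphicOn.circleIntegrable_posLog_norm (fun z _ => hf z)

theorem ne_cod {f : ℂ → ℂ} (hf : Differentiable ℂ f) {x : ℂ} (hx : f x ≠ 0) (R : ℝ) :
    ∀ᶠ z in codiscreteWithin (sphere (0 : ℂ) |R|), f z ≠ 0 := by
  have h := AnalyticOnNhd.preimage_zero_mem_codiscrete (fun z _ => hf.analyticAt z) hx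
  exact (codiscreteWithin_mono (subset_univ _)) h

theorem L_congr {f g : ℂ → ℂ} {R : ℝ} (hR : R ≠ 0)
    (h : ∀ᶠ z in codiscreteWithin (sphere (0 : ℂ) |R|), f z = g z) : L f R = L g R := by
  unfold L
  apply Real.circleAverage_congr_codiscreteWithin _ hR
  filter_upwards [h] with z hz
  rw [hz]

theorem L_mul' {f g : ℂ → ℂ} (hf : Meromorphic f) (hg : Meromorphic g) {R : ℝ} (hR : R ≠ 0)
    (h1 : ∀ᶠ z in codiscreteWithin (sphere (0 : ℂ) |R|), f z ≠ 0)
    (h2 : ∀ᶠ z in codiscreteWithin (sphere (0 : ℂ) |R|), g z ≠ 0) :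
    L (fun z => f z * g z) R = L f R + L g R := by
  unfold L
  rw [← Real.circleAverage_fun_add (ci_log hf R) (ci_log hg R)]
  apply Real.circleAverage_congr_codiscreteWithin _ hR
  filter_upwards [h1, h2] with z hz1 hz2
  rw [norm_mul, Real.log_mul (norm_ne_zero_iff.mpr hz1) (norm_ne_zero_iff.mpr hz2)]

theorem L_mul {f g : ℂ → ℂ} (hf : Differentiable ℂ f) (hg : Differentiable ℂ g) {x y : ℂ}
    (hx : f x ≠ 0) (hy : g y ≠ 0) {R : ℝ} (hR : R ≠ 0) :
    L (fun z => f z * g z) R = L f R + L g R :=
  L_mul' (mero_of_diff hf) (mero_of_diff hg) hR (ne_cod hf hx R) (ne_cod hg hy R)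

theorem jensen_ge {f : ℂ → ℂ} {R : ℝ} (hR : 0 < R) (hf : Meromorphic f)
    (hord : ∀ z ∈ closedBall (0 : ℂ) R, 0 ≤ meromorphicOrderAt f z)
    (ha : AnalyticAt ℂ f 0) (h0 : f 0 ≠ 0) : Real.log ‖f 0‖ ≤ L f R := by
  have hR' : |R| = R := abs_of_pos hR
  have h := MeromorphicOn.circleAverage_log_norm (c := 0) (R := R) (f := f) hR.ne'
    (fun z _ => hf z)
  unfold L
  rw [hR'] at h
  rw [h, ha.meromorphicTrailingCoeffAt_of_ne_zero h0]
  have h1 : divisor f (closedBall 0 R) 0 = 0 := by
    rw [MeromorphicOn.divisor_apply (fun z _ => hf z) (by simp [hR.le])]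
    rw [ha.meromorphicOrderAt_eq, ha.analyticOrderAt_eq_zero.mpr h0]
    rfl
  rw [h1]
  have h2 : 0 ≤ ∑ᶠ u, (divisor f (closedBall 0 R) u : ℝ) * Real.log (R * ‖0 - u‖⁻¹) := by
    apply finsum_nonneg
    intro u
    by_cases hu : u ∈ closedBall (0 : ℂ) R
    · apply mul_nonneg
      · rw [MeromorphicOn.divisor_apply (fun z _ => hf z) hu]
        have := hord u hu
        have h3 : 0 ≤ (meromorphicOrderAt f u).untop₀ := by
          cases h4 : meromorphicOrderAt f u with
          | top => simp
          | coe n =>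
            rw [h4] at this
            simpa using this
        exact_mod_cast h3
      · rw [mem_closedBall, dist_zero_right] at hu
        rw [zero_sub, norm_neg]
        rcases eq_or_ne u 0 with rfl | hu0
        · simp
        · apply Real.log_nonneg
          have hpos : 0 < ‖u‖ := norm_pos_iff.mpr hu0
          rw [← div_eq_mul_inv, le_div_iff₀ hpos]
          simpa using hu
    · have : divisor f (closedBall 0 R) u = 0 :=
        Function.locallyFinsuppWithin.apply_eq_zero_of_notMem _ hu
      rw [this]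
      simp
  simp only [Int.cast_zero, zero_mul, add_zero]
  linarith

theorem jensen_entire {f : ℂ → ℂ} {R : ℝ} (hR : 0 < R) (hf : Differentiable ℂ f)
    (h0 : f 0 ≠ 0) : Real.log ‖f 0‖ ≤ L f R :=
  jensen_ge hR (mero_of_diff hf) (fun z _ => (hf.analyticAt z).meromorphicOrderAt_nonneg)
    (hf.analyticAt 0) h0

theorem L_mono {f : ℂ → ℂ} (hf : Differentiable ℂ f) {r R : ℝ} (hr : 0 < r) (hrR : r ≤ R) :
    L f r ≤ L f R := by
  have h1 := Function.locallyFinsuppWithin.logCounting_divisor_eq_circleAverage_sub_const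
    (mero_of_diff hf) hr.ne'
  have h2 := Function.locallyFinsuppWithin.logCounting_divisor_eq_circleAverage_sub_const
    (mero_of_diff hf) (hr.trans_le hrR).ne'
  have h3 := Function.locallyFinsuppWithin.logCounting_mono
    (D := divisor f univ) (AnalyticOnNhd.divisor_nonneg (fun z _ => hf.analyticAt z))
    (mem_Ioi.mpr hr) (mem_Ioi.mpr (hr.trans_le hrR)) hrR
  unfold L
  linarith

/-- mean of `log max (‖f‖, ‖g‖)` -/
noncomputable def T2 (f g : ℂ → ℂ) (r : ℝ) : ℝ :=
  L f r + Real.circleAverage (fun z => Real.posLog ‖g z / f z‖) 0 r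

theorem T2_mono {f g : ℂ → ℂ} (hf : Differentiable ℂ f) {x : ℂ} (hx : f x ≠ 0)
    (hg : Differentiable ℂ g) {r R : ℝ} (hr : 0 < r) (hrR : r ≤ R) : T2 f g r ≤ T2 f g R := by
  have hm : Meromorphic (fun z => g z / f z) :=
    fun z => ((hg.analyticAt z).meromorphicAt).div ((hf.analyticAt z).meromorphicAt)
  have key : ∀ ρ : ℝ, T2 f g ρ = Real.circleAverage (fun a =>
      L f ρ + Real.circleAverage (fun z => Real.log ‖g z / f z - a‖) 0 ρ) 0 1 := by
    intro ρ
    unfold T2
    have h1 := congrFun (ValueDistribution.circleAverage_circleAverage_eq_proximity_top hm) ρ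
    rw [ValueDistribution.proximity_top] at h1
    rw [Real.circleAverage_fun_add (circleIntegrable_const _ _ _)
      (ValueDistribution.circleIntegrable_circleAverage_log_norm_sub hm),
      Real.circleAverage_const]
    rw [h1]
  rw [key r, key R]
  apply Real.circleAverage_mono
  · exact (circleIntegrable_const _ _ _).add
      (ValueDistribution.circleIntegrable_circleAverage_log_norm_sub hm)
  · exact (circleIntegrable_const _ _ _).add
      (ValueDistribution.circleIntegrable_circleAverage_log_norm_sub hm)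
  intro a _
  have hR : 0 < R := hr.trans_le hrR
  by_cases hcase : ∀ z, g z - a * f z = 0
  · have h1 : ∀ ρ : ℝ, ρ ≠ 0 →
        Real.circleAverage (fun z => Real.log ‖g z / f z - a‖) 0 ρ = 0 := by
      intro ρ hρ
      have h2 : L (fun z => g z / f z - a) ρ = L (fun _ => 0) ρ := by
        apply L_congr hρ
        filter_upwards [ne_cod hf hx ρ] with z hz
        rw [sub_eq_zero, div_eq_iff hz]
        exact sub_eq_zero.mp (hcase z)
      have h3 : L (fun _ => 0) ρ = 0 := by
        unfold L
        simp [Real.circleAverage_const]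
      rw [h3] at h2
      exact h2
    rw [h1 r hr.ne', h1 R hR.ne', add_zero, add_zero]
    exact L_mono hf hr hrR
  · push Not at hcase
    obtain ⟨y, hy⟩ := hcase
    have hd : Differentiable ℂ (fun z => g z - a * f z) := hg.sub (hf.const_mul a)
    have h1 : ∀ ρ : ℝ, ρ ≠ 0 → L f ρ +
        Real.circleAverage (fun z => Real.log ‖g z / f z - a‖) 0 ρ
          = L (fun z => g z - a * f z) ρ := by
      intro ρ hρ
      have hm' : Meromorphic (fun z => g z / f z - a) := fun z => (hm z).sub (by fun_prop)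
      have h2 := L_mul' (mero_of_diff hf) hm' hρ (ne_cod hf hx ρ) (by
        filter_upwards [ne_cod hf hx ρ, ne_cod hd hy ρ] with z hz hz2
        intro h0
        apply hz2
        rw [sub_eq_zero, div_eq_iff hz] at h0
        rw [h0]; ring)
      have h3 : L (fun z => f z * (g z / f z - a)) ρ = L (fun z => g z - a * f z) ρ := by
        apply L_congr hρ
        filter_upwards [ne_cod hf hx ρ] with z hz
        field_simp
      rw [← h3, h2]
      rfl
    rw [h1 r hr.ne', h1 R hR.ne']
    exact L_mono hd hr hrR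

end Pool.Agent.H159R3.NV
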