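import Mathlib

/-!
Oscillation of `log ‖k‖` for a zero-free function, by the Poisson formula.
-/

set_option autoImplicit false

namespace Pool.Agent.H159R3.NV

open Filter Metric Real Set Topology

theorem kernel_diff {R δ : ℝ} (hδ : 0 < δ) {w z ζ : ℂ} (hζ : ‖ζ‖ = R)
    (hw : ‖w‖ ≤ R - δ) (hz : ‖z‖ ≤ R - δ) :
    |(Complex.re ∘ herglotzRieszKernel 0 w) ζ - (Complex.re ∘ herglotzRieszKernel 0 z) ζ|
      ≤ 2 * R * ‖w - z‖ / δ ^ 2 := by
  have h1 : δ ≤ ‖ζ - w‖ := by
    have := norm_sub_norm_le ζ w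
    linarith
  have h2 : δ ≤ ‖ζ - z‖ := by
    have := norm_sub_norm_le ζ z
    linarith
  have h1' : ζ - w ≠ 0 := norm_pos_iff.mp (hδ.trans_le h1)
  have h2' : ζ - z ≠ 0 := norm_pos_iff.mp (hδ.trans_le h2)
  have e : herglotzRieszKernel 0 w ζ - herglotzRieszKernel 0 z ζ
      = 2 * ζ * (w - z) / ((ζ - w) * (ζ - z)) := by
    rw [herglotzRieszKernel_def, herglotzRieszKernel_def]
    simp only [sub_zero]
    field_simp
    ring
  simp only [Function.comp_apply]
  rw [← Complex.sub_re, e]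
  refine (Complex.abs_re_le_norm _).trans ?_
  rw [norm_div, norm_mul, norm_mul, norm_mul, hζ]
  have h3 : δ ^ 2 ≤ ‖ζ - w‖ * ‖ζ - z‖ := by
    rw [sq]
    exact mul_le_mul h1 h2 hδ.le (norm_nonneg _)
  have h4 : ‖(2 : ℂ)‖ = 2 := by simp
  rw [h4]
  have hR : 0 ≤ R := hζ ▸ norm_nonneg ζ
  exact div_le_div_of_nonneg_left (by positivity) (by positivity) h3

theorem kernel_cont {R : ℝ} (hR : 0 < R) {w : ℂ} (hw : ‖w‖ < R) :
    ContinuousOn (Complex.re ∘ herglotzRieszKernel 0 w) (sphere 0 |R|) := by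
  have : ∀ x ∈ sphere (0 : ℂ) |R|, x - w ≠ 0 := by
    intro x hx h
    rw [mem_sphere, dist_zero_right, abs_of_pos hR] at hx
    rw [sub_eq_zero.mp h] at hx
    linarith
  apply Complex.continuous_re.comp_continuousOn
  rw [herglotzRieszKernel_fun_def]
  simp only [sub_zero]
  exact (continuousOn_id.add continuousOn_const).div (continuousOn_id.sub continuousOn_const) this

theorem poisson_diff {k : ℂ → ℂ} {R δ : ℝ} (hR : 0 < R) (hδ : 0 < δ)
    (hk : ∀ z ∈ closedBall (0 : ℂ) R, AnalyticAt ℂ k z)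
    (hne : ∀ z ∈ closedBall (0 : ℂ) R, k z ≠ 0) {w z : ℂ} (hw : ‖w‖ ≤ R - δ) (hz : ‖z‖ ≤ R - δ) :
    |Real.log ‖k w‖ - Real.log ‖k z‖|
      ≤ 2 * R * ‖w - z‖ / δ ^ 2 * Real.circleAverage (fun ζ => |Real.log ‖k ζ‖|) 0 R := by
  set H : ℂ → ℝ := fun ζ => Real.log ‖k ζ‖ with hH
  have hharm : InnerProductSpace.HarmonicOnNhd H (closedBall 0 R) :=
    fun x hx => (hk x hx).harmonicAt_log_norm (hne x hx)
  have hcont : ContinuousOn H (sphere 0 |R|) := by
    rw [abs_of_pos hR]
    intro x hx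
    have hx' := sphere_subset_closedBall hx
    exact (((hk x hx').continuousAt.norm.log
      (norm_ne_zero_iff.mpr (hne x hx')))).continuousWithinAt
  have hwb : w ∈ ball (0 : ℂ) R := by rw [mem_ball, dist_zero_right]; linarith
  have hzb : z ∈ ball (0 : ℂ) R := by rw [mem_ball, dist_zero_right]; linarith
  have h1 := hharm.circleAverage_re_herglotzRieszKernel_smul hwb
  have h2 := hharm.circleAverage_re_herglotzRieszKernel_smul hzb
  have c1 : ContinuousOn ((Complex.re ∘ herglotzRieszKernel 0 w) • H) (sphere 0 |R|) :=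
    (kernel_cont hR (by simpa using hwb)).smul hcont
  have c2 : ContinuousOn ((Complex.re ∘ herglotzRieszKernel 0 z) • H) (sphere 0 |R|) :=
    (kernel_cont hR (by simpa using hzb)).smul hcont
  have h3 : H w - H z = Real.circleAverage (((Complex.re ∘ herglotzRieszKernel 0 w) • H)
      - ((Complex.re ∘ herglotzRieszKernel 0 z) • H)) 0 R := by
    rw [Real.circleAverage_sub c1.circleIntegrable' c2.circleIntegrable', h1, h2]
  change |H w - H z| ≤ _
  rw [h3]
  refine Real.abs_circleAverage_le_circleAverage_abs.trans ?_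
  rw [← smul_eq_mul, ← Real.circleAverage_fun_smul]
  apply Real.circleAverage_mono
  · exact (c1.sub c2).abs.circleIntegrable'
  · exact (hcont.abs.const_smul (2 * R * ‖w - z‖ / δ ^ 2)).circleIntegrable'
  · intro x hx
    rw [mem_sphere, dist_zero_right, abs_of_pos hR] at hx
    have h4 := kernel_diff hδ hx hw hz
    simp only [Pi.abs_apply, Pi.sub_apply, Pi.smul_apply', Pi.mul_apply, smul_eq_mul]
    rw [← sub_mul, abs_mul]
    exact mul_le_mul_of_nonneg_right h4 (abs_nonneg _)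

end Pool.Agent.H159R3.NV
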