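import Pool.Agent.H159R3.NV.Det
import Pool.Agent.H159R3.NV.Factor
import Pool.Agent.H159R3.NV.PoissonDiff

/-!
The lower bound for the mean of the Wronskian, and the pointwise upper bound.
-/

set_option autoImplicit false

namespace Pool.Agent.H159R3.NV

open Filter Metric Real Set Topology

theorem eventually_all_ne {m : ℕ} (v : Fin (m + 1) → ℂ → ℂ) (hv : ∀ j, Differentiable ℂ (v j))
    (hv0 : ∀ j, v j 0 ≠ 0) (R : ℝ) :
    ∀ᶠ z in codiscreteWithin (sphere (0 : ℂ) |R|), ∀ j, v j z ≠ 0 := by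
  rw [Filter.eventually_all]
  exact fun j => ne_cod (hv j) (hv0 j) R

theorem cartan_lower {m N : ℕ} (hN : m ≤ N + 1) (v : Fin (m + 1) → ℂ → ℂ)
    (hv : ∀ j, Differentiable ℂ (v j)) (hv0 : ∀ j, v j 0 ≠ 0)
    (hs : ∀ z, ∑ j, v j z ^ N = 0) (hW : wr N v 0 0 ≠ 0) {R : ℝ} (hR : 0 < R)
    (hcz : ∀ z, ‖z‖ ≤ R → ∃ j, v j z ≠ 0) :
    Real.log ‖wr N v 0 0‖ - ((N + 1 - m : ℕ) : ℝ) * ∑ j, Real.log ‖v j 0‖
      + ((N + 1 - m : ℕ) : ℝ) * ∑ j, L (v j) R ≤ L (wr N v 0) R := by
  set M : ℕ := N + 1 - m with hM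
  have hWd : Differentiable ℂ (wr N v 0) := wr_diff N v hv 0
  have hPd : Differentiable ℂ (fun z => (∏ j, v j z) ^ M) :=
    (Differentiable.fun_finset_prod fun j _ => hv j).pow M
  let E : ℂ → ℂ := fun z => wr N v 0 z / (∏ j, v j z) ^ M
  have hEm : Meromorphic E :=
    fun z => ((hWd.analyticAt z).meromorphicAt).div ((hPd.analyticAt z).meromorphicAt)
  have hP0 : (∏ j, v j 0) ^ M ≠ 0 := pow_ne_zero _ (Finset.prod_ne_zero_iff.mpr fun j _ => hv0 j)
  have hord : ∀ z ∈ closedBall (0 : ℂ) R, 0 ≤ meromorphicOrderAt E z := by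
    intro z0 hz0
    rw [mem_closedBall, dist_zero_right] at hz0
    obtain ⟨i, hi⟩ := hcz z0 hz0
    obtain ⟨D, hD, hDe⟩ := wr_div N hN v hv i
    obtain ⟨ε, hε, hεe⟩ := wr_norm N v hv hs i
    have hεε : ε * ε = 1 := by rcases hε with rfl | rfl <;> norm_num
    have han : AnalyticAt ℂ (fun z => ε * D z / v i z ^ M) z0 :=
      (((hD.const_mul ε).analyticAt z0)).div (((hv i).pow M).analyticAt z0) (pow_ne_zero _ hi)
    have hcongr : E =ᶠ[𝓝[≠] z0] fun z => ε * D z / v i z ^ M := by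
      have h1 : ∀ᶠ z in 𝓝[≠] z0, ∀ j, v j z ≠ 0 := by
        rw [Filter.eventually_all]
        intro j
        have := AnalyticOnNhd.eqOn_zero_or_eventually_ne_zero_of_preconnected
          (f := v j) (U := Set.univ) (fun z _ => (hv j).analyticAt z) isPreconnected_univ
        rcases this with h | h
        · exact absurd (h (mem_univ 0)) (hv0 j)
        · have h2 := (mem_codiscreteWithin_iff_forall_mem_nhdsNE.1 h) z0 (mem_univ _)
          filter_upwards [h2] with z hz
          rcases hz with hz | hz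
          · exact hz
          · exact absurd (mem_univ z) hz
      filter_upwards [h1] with z hz
      have h2 : wr N v 0 z = ε * wr N v i z := by rw [hεe z, ← mul_assoc, hεε, one_mul]
      simp only [E]
      rw [h2, hDe z, Fin.prod_univ_succAbove (fun j => v j z) i, mul_pow]
      have h3 : (∏ b : Fin m, v (i.succAbove b) z) ^ M ≠ 0 :=
        pow_ne_zero _ (Finset.prod_ne_zero_iff.mpr fun j _ => hz _)
      have h4 : v i z ^ M ≠ 0 := pow_ne_zero _ (hz i)
      field_simp
      rw [← hM]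
      ring
    rw [meromorphicOrderAt_congr hcongr]
    exact han.meromorphicOrderAt_nonneg
  have hE0 : E 0 ≠ 0 := div_ne_zero hW hP0
  have hEa : AnalyticAt ℂ E 0 := (hWd.analyticAt 0).div (hPd.analyticAt 0) hP0
  have h1 := jensen_ge hR hEm hord hEa hE0
  have h2 : L E R = L (wr N v 0) R - (M : ℝ) * ∑ j, L (v j) R := by
    unfold L
    have e1 : (M : ℝ) * ∑ j, Real.circleAverage (fun z => Real.log ‖v j z‖) 0 R
        = Real.circleAverage (fun z => (M : ℝ) * ∑ j, Real.log ‖v j z‖) 0 R := by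
      rw [← Real.circleAverage_fun_sum (fun j _ => ci_log (mero_of_diff (hv j)) R)]
      exact (Real.circleAverage_fun_smul (a := (M : ℝ))).symm
    have hint : CircleIntegrable (fun z => (M : ℝ) * ∑ j, Real.log ‖v j z‖) 0 R := by
      have : CircleIntegrable (fun z => ∑ j, Real.log ‖v j z‖) 0 R :=
        CircleIntegrable.fun_sum _ (fun j _ => ci_log (mero_of_diff (hv j)) R)
      exact this.const_smul (a := (M : ℝ))
    rw [e1, ← Real.circleAverage_fun_sub (ci_log (mero_of_diff hWd) R) hint]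
    apply Real.circleAverage_congr_codiscreteWithin _ hR.ne'
    filter_upwards [eventually_all_ne v hv hv0 R, ne_cod hWd hW R] with z hz hz2
    have h3 : (∏ j, v j z) ^ M ≠ 0 := pow_ne_zero _ (Finset.prod_ne_zero_iff.mpr fun j _ => hz j)
    simp only [E]
    rw [norm_div, Real.log_div (norm_ne_zero_iff.mpr hz2) (norm_ne_zero_iff.mpr h3), norm_pow,
      Real.log_pow, norm_prod, Real.log_prod (fun j _ => norm_ne_zero_iff.mpr (hz j))]
  have h3 : Real.log ‖E 0‖ = Real.log ‖wr N v 0 0‖ - (M : ℝ) * ∑ j, Real.log ‖v j 0‖ := by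
    simp only [E]
    rw [norm_div, Real.log_div (norm_ne_zero_iff.mpr hW) (norm_ne_zero_iff.mpr hP0), norm_pow,
      Real.log_pow, norm_prod, Real.log_prod (fun j _ => norm_ne_zero_iff.mpr (hv0 j))]
  rw [h2, h3] at h1
  linarith

/-- the pointwise bound -/
theorem point_upper {m N : ℕ} (v : Fin (m + 1) → ℂ → ℂ)
    (hv : ∀ j, Differentiable ℂ (v j)) {z : ℂ} {ε : ℝ} (hε : 0 < ε) (hε1 : ε ≤ 1)
    (h0 : ∀ w ∈ closedBall z ε, v 0 w ≠ 0)
    (hb : ∀ j, ∀ w ∈ closedBall z ε, ‖v j w / v 0 w‖ ≤ Real.exp 1 * ‖v j z / v 0 z‖)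
    (i : Fin (m + 1)) :
    ‖wr N v i z‖ ≤ (Nat.factorial m) *
      ((Nat.factorial m) * Real.exp N * (1 / ε) ^ m) ^ m * ∏ b : Fin m, ‖v (i.succAbove b) z‖ ^ N := by
  have hz0 : v 0 z ≠ 0 := h0 z (mem_closedBall_self hε.le)
  have han : ∀ b : Fin m, ∀ w ∈ closedBall z ε,
      AnalyticAt ℂ (fun w => (v (i.succAbove b) w / v 0 w) ^ N) w := fun b w hw =>
    (((hv _).analyticAt w).div ((hv 0).analyticAt w) (h0 w hw)).pow N
  have e1 : wr N v i z = (v 0 z ^ N) ^ m *
      (Matrix.of fun b l : Fin m =>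
        iteratedDeriv l (fun w => (v (i.succAbove b) w / v 0 w) ^ N) z).det := by
    rw [← scale_det (fun w => v 0 w ^ N) (fun b w => (v (i.succAbove b) w / v 0 w) ^ N) z
      (((hv 0).pow N).analyticAt z) (fun b => han b z (mem_closedBall_self hε.le))]
    unfold wr
    congr 1
    ext b l
    simp only [Matrix.of_apply]
    apply Filter.EventuallyEq.iteratedDeriv_eq
    filter_upwards [closedBall_mem_nhds z hε] with w hw
    have := h0 w hw
    rw [div_pow]
    field_simp
  have hder : ∀ b l : Fin m, ‖(Matrix.of fun b l : Fin m =>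
        iteratedDeriv l (fun w => (v (i.succAbove b) w / v 0 w) ^ N) z) b l‖
      ≤ (Nat.factorial m) * Real.exp N * (1 / ε) ^ m * ‖v (i.succAbove b) z / v 0 z‖ ^ N := by
    intro b l
    simp only [Matrix.of_apply]
    have h1 := Complex.norm_iteratedDeriv_le_of_forall_mem_sphere_norm_le (n := l) (c := z) (R := ε)
      (C := (Real.exp 1 * ‖v (i.succAbove b) z / v 0 z‖) ^ N)
      (f := fun w => (v (i.succAbove b) w / v 0 w) ^ N) hε
      (by
        apply DifferentiableOn.diffContOnCl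
        intro w hw
        exact (han b w (closure_ball_subset_closedBall hw)).differentiableAt.differentiableWithinAt)
      (by
        intro w hw
        rw [norm_pow]
        exact pow_le_pow_left₀ (norm_nonneg _) (hb _ w (sphere_subset_closedBall hw)) N)
    refine h1.trans ?_
    have h2 : (Nat.factorial (l : ℕ) : ℝ) ≤ Nat.factorial m := by
      exact_mod_cast Nat.factorial_le l.2.le
    have h3 : 1 / ε ^ (l : ℕ) ≤ (1 / ε) ^ m := by
      rw [one_div_pow]
      apply one_div_le_one_div_of_le (by positivity)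
      exact pow_le_pow_of_le_one hε.le hε1 l.2.le
    rw [mul_pow, ← Real.exp_nat_mul, mul_one]
    calc (Nat.factorial (l : ℕ) : ℝ) * (Real.exp N * ‖v (i.succAbove b) z / v 0 z‖ ^ N) / ε ^ (l : ℕ)
        = (Nat.factorial (l : ℕ) : ℝ) * (Real.exp N * ‖v (i.succAbove b) z / v 0 z‖ ^ N)
          * (1 / ε ^ (l : ℕ)) := by ring
      _ ≤ (Nat.factorial m : ℝ) * (Real.exp N * ‖v (i.succAbove b) z / v 0 z‖ ^ N)
          * ((1 / ε) ^ m) := by gcongr
      _ = _ := by ring
  rw [e1, norm_mul]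
  have h4 := det_bound _ _ hder
  calc ‖(v 0 z ^ N) ^ m‖ * _ ≤ ‖(v 0 z ^ N) ^ m‖ * ((Nat.factorial m) * ∏ b : Fin m,
        ((Nat.factorial m) * Real.exp N * (1 / ε) ^ m * ‖v (i.succAbove b) z / v 0 z‖ ^ N)) :=
        mul_le_mul_of_nonneg_left h4 (norm_nonneg _)
    _ = (Nat.factorial m) *
      ((Nat.factorial m) * Real.exp N * (1 / ε) ^ m) ^ m * ∏ b : Fin m, ‖v (i.succAbove b) z‖ ^ N := by
      rw [Finset.prod_mul_distrib, Finset.prod_const, Finset.card_univ, Fintype.card_fin]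
      have h5 : ∏ b : Fin m, ‖v (i.succAbove b) z / v 0 z‖ ^ N
          = (∏ b : Fin m, ‖v (i.succAbove b) z‖ ^ N) / (‖v 0 z‖ ^ N) ^ m := by
        simp only [norm_div, div_pow]
        rw [Finset.prod_div_distrib, Finset.prod_const, Finset.card_univ, Fintype.card_fin]
      rw [h5, norm_pow, norm_pow]
      have h6 : (‖v 0 z‖ ^ N) ^ m ≠ 0 := by
        have := norm_ne_zero_iff.mpr hz0
        positivity
      field_simp

end Pool.Agent.H159R3.NV
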