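import Pool.Agent.H159R3.NV.StepA

/-!
Counting, mean values and the estimates on a good circle.
-/

set_option autoImplicit false

namespace Pool.Agent.H159R3.NV

open Filter Metric Real Set Topology

theorem avg_le_cod {f g : ℂ → ℝ} {R : ℝ} (hf : CircleIntegrable f 0 R)
    (hg : CircleIntegrable g 0 R) (hR : R ≠ 0)
    (h : ∀ᶠ z in codiscreteWithin (sphere (0 : ℂ) |R|), f z ≤ g z) :
    Real.circleAverage f 0 R ≤ Real.circleAverage g 0 R := by
  classical
  let f' : ℂ → ℝ := fun z => if f z ≤ g z then f z else g z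
  have he : f =ᶠ[codiscreteWithin (sphere (0 : ℂ) |R|)] f' := by
    filter_upwards [h] with z hz
    simp only [f']
    rw [if_pos hz]
  rw [Real.circleAverage_congr_codiscreteWithin he hR]
  apply Real.circleAverage_mono (hf.congr_codiscreteWithin he) hg
  intro z _
  simp only [f']
  split_ifs with h1
  · exact h1
  · exact le_rfl

theorem ci_abs {f : ℂ → ℝ} {R : ℝ} (hf : CircleIntegrable f 0 R) :
    CircleIntegrable (fun z => |f z|) 0 R := IntervalIntegrable.abs hf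

theorem quot_mero {f g : ℂ → ℂ} (hf : Differentiable ℂ f) (hg : Differentiable ℂ g) :
    Meromorphic (fun z => g z / f z) :=
  fun z => ((hg.analyticAt z).meromorphicAt).div ((hf.analyticAt z).meromorphicAt)

theorem L_quot {f g : ℂ → ℂ} (hf : Differentiable ℂ f) (hg : Differentiable ℂ g) {x y : ℂ}
    (hx : f x ≠ 0) (hy : g y ≠ 0) {R : ℝ} (hR : R ≠ 0) :
    L (fun z => g z / f z) R = L g R - L f R := by
  have h1 := L_mul' (mero_of_diff hf) (quot_mero hf hg) hR (ne_cod hf hx R) (by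
    filter_upwards [ne_cod hf hx R, ne_cod hg hy R] with z h1 h2
    exact div_ne_zero h2 h1)
  have h2 : L (fun z => f z * (g z / f z)) R = L g R := by
    apply L_congr hR
    filter_upwards [ne_cod hf hx R] with z hz
    field_simp
  rw [h2] at h1
  linarith

theorem T2_ge_L0 (f g : ℂ → ℂ) (R : ℝ) : L f R ≤ T2 f g R := by
  unfold T2
  have : 0 ≤ Real.circleAverage (fun z => Real.posLog ‖g z / f z‖) 0 R :=
    Real.circleAverage_nonneg_of_nonneg (fun z _ => Real.posLog_nonneg)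
  linarith

theorem log_le_posLog (x : ℝ) : Real.log x ≤ Real.posLog x := by
  rw [Real.posLog_apply]
  exact le_max_right _ _

theorem T2_ge_L {f g : ℂ → ℂ} (hf : Differentiable ℂ f) (hg : Differentiable ℂ g) {x y : ℂ}
    (hx : f x ≠ 0) (hy : g y ≠ 0) {R : ℝ} (hR : R ≠ 0) : L g R ≤ T2 f g R := by
  have h1 := L_quot hf hg hx hy hR
  have h2 : L (fun z => g z / f z) R ≤ Real.circleAverage (fun z => Real.posLog ‖g z / f z‖) 0 R :=
    Real.circleAverage_mono (ci_log (quot_mero hf hg) R) (ci_posLog (quot_mero hf hg) R)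
      (fun z _ => log_le_posLog _)
  unfold T2
  linarith

theorem avg_abs_log {h : ℂ → ℂ} (hh : Meromorphic h) (R : ℝ) :
    Real.circleAverage (fun z => |Real.log ‖h z‖|) 0 R
      = 2 * Real.circleAverage (fun z => Real.posLog ‖h z‖) 0 R - L h R := by
  have e : (fun z => |Real.log ‖h z‖|)
      = fun z => (2 : ℝ) • Real.posLog ‖h z‖ - Real.log ‖h z‖ := by
    funext z
    rw [← Real.half_mul_log_add_log_abs, smul_eq_mul]
    ring
  have i1 : CircleIntegrable (fun z => (2 : ℝ) • Real.posLog ‖h z‖) 0 R :=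
    (ci_posLog hh R).const_smul
  rw [e, Real.circleAverage_fun_sub i1 (ci_log hh R), Real.circleAverage_fun_smul]
  rfl

theorem avg_abs_quot {f g : ℂ → ℂ} (hf : Differentiable ℂ f) (hg : Differentiable ℂ g) {x y : ℂ}
    (hx : f x ≠ 0) (hy : g y ≠ 0) {R : ℝ} (hR : R ≠ 0) :
    Real.circleAverage (fun z => |Real.log ‖g z / f z‖|) 0 R = 2 * T2 f g R - L f R - L g R := by
  rw [avg_abs_log (quot_mero hf hg), L_quot hf hg hx hy hR]
  unfold T2
  ring

theorem avg_abs_lin {a : ℂ} {R : ℝ} (hR : 1 ≤ R) (ha : ‖a‖ ≤ R) :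
    Real.circleAverage (fun z => |Real.log ‖z - a‖|) 0 R ≤ 2 * Real.log (2 * R) := by
  have hm : Meromorphic (fun z : ℂ => z - a) := mero_of_diff (differentiable_id.sub_const a)
  rw [avg_abs_log hm, L_lin (by linarith) ha]
  have h1 : Real.circleAverage (fun z => Real.posLog ‖z - a‖) 0 R ≤ Real.log (2 * R) := by
    apply Real.circleAverage_mono_on_of_le_circle (ci_posLog hm R)
    intro z hz
    rw [mem_sphere, dist_zero_right, abs_of_pos (by linarith)] at hz
    rw [Real.posLog_apply]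
    apply max_le (Real.log_nonneg (by linarith))
    rcases eq_or_ne ‖z - a‖ 0 with h0 | h0
    · rw [h0, Real.log_zero]; exact Real.log_nonneg (by linarith)
    · apply Real.log_le_log (lt_of_le_of_ne (norm_nonneg _) h0.symm)
      calc ‖z - a‖ ≤ ‖z‖ + ‖a‖ := norm_sub_le _ _
        _ ≤ 2 * R := by linarith
  have h2 : 0 ≤ Real.log R := Real.log_nonneg hR
  linarith

theorem avg_abs_P (Z : List ℂ) {R : ℝ} (hR : 1 ≤ R) (hZ : ∀ a ∈ Z, ‖a‖ ≤ R) :
    Real.circleAverage (fun z => |Real.log ‖P Z z‖|) 0 R ≤ Z.length * (2 * Real.log (2 * R)) := by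
  induction Z with
  | nil =>
    simp [P_nil, Real.circleAverage_const]
  | cons a Z ih =>
    have ih' := ih (fun b hb => hZ b (List.mem_cons_of_mem _ hb))
    have ha := avg_abs_lin hR (hZ a List.mem_cons_self)
    have hR0 : R ≠ 0 := by linarith
    have hm : Meromorphic (fun z : ℂ => z - a) := mero_of_diff (differentiable_id.sub_const a)
    have i1 := ci_abs (ci_log hm R)
    have i2 := ci_abs (ci_log (mero_of_diff (P_diff Z)) R)
    have h1 : Real.circleAverage (fun z => |Real.log ‖P (a :: Z) z‖|) 0 R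
        ≤ Real.circleAverage (fun z => |Real.log ‖z - a‖| + |Real.log ‖P Z z‖|) 0 R := by
      apply Real.circleAverage_mono (ci_abs (ci_log (mero_of_diff (P_diff (a :: Z))) R))
        (i1.add i2)
      intro z _
      rw [P_cons]
      change _ ≤ |Real.log ‖z - a‖| + |Real.log ‖P Z z‖|
      have hnn : 0 ≤ |Real.log ‖z - a‖| + |Real.log ‖P Z z‖| := by positivity
      by_cases h2 : z - a = 0
      · rw [h2, zero_mul, norm_zero, Real.log_zero, abs_zero]
        positivity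
      by_cases h3 : P Z z = 0
      · rw [h3, mul_zero, norm_zero, Real.log_zero, abs_zero]
        positivity
      rw [norm_mul, Real.log_mul (norm_ne_zero_iff.mpr h2) (norm_ne_zero_iff.mpr h3)]
      exact abs_add_le _ _
    rw [Real.circleAverage_fun_add i1 i2] at h1
    push_cast [List.length_cons]
    linarith

/-- the data for the second main theorem -/
structure Sys (m N : ℕ) (v : Fin (m + 1) → ℂ → ℂ) (Λ Rs : ℝ) : Prop where
  hv : ∀ j, Differentiable ℂ (v j)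
  hv0 : ∀ j, v j 0 ≠ 0
  hs : ∀ z, ∑ j, v j z ^ N = 0
  hW : wr N v 0 0 ≠ 0
  hΛ0 : 0 ≤ Λ
  hΛ : ∀ j, |Real.log ‖v j 0‖| ≤ Λ
  hΛW : -Λ ≤ Real.log ‖wr N v 0 0‖
  hcz : ∀ z, ‖z‖ ≤ Rs → ∃ j, v j z ≠ 0

/-- the sum of the characteristics -/
noncomputable def SS {m : ℕ} (v : Fin (m + 1) → ℂ → ℂ) (Λ r : ℝ) : ℝ :=
  ∑ j, (T2 (v 0) (v j) r + Λ)

section

variable {m N : ℕ} {v : Fin (m + 1) → ℂ → ℂ} {Λ Rs : ℝ}

theorem Sys.L_ge (h : Sys m N v Λ Rs) (j : Fin (m + 1)) {R : ℝ} (hR : 0 < R) : -Λ ≤ L (v j) R := by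
  have h1 := jensen_entire hR (h.hv j) (h.hv0 j)
  have h2 := (abs_le.mp (h.hΛ j)).1
  linarith

theorem Sys.term_nonneg (h : Sys m N v Λ Rs) (j : Fin (m + 1)) {R : ℝ} (hR : 0 < R) :
    0 ≤ T2 (v 0) (v j) R + Λ := by
  have h1 := h.L_ge 0 hR
  have h2 := T2_ge_L0 (v 0) (v j) R
  linarith

theorem Sys.term_le (h : Sys m N v Λ Rs) (j : Fin (m + 1)) {R : ℝ} (hR : 0 < R) :
    T2 (v 0) (v j) R + Λ ≤ SS v Λ R :=
  Finset.single_le_sum (f := fun j => T2 (v 0) (v j) R + Λ)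
    (fun i _ => h.term_nonneg i hR) (Finset.mem_univ j)

theorem Sys.SS_nonneg (h : Sys m N v Λ Rs) {R : ℝ} (hR : 0 < R) : 0 ≤ SS v Λ R :=
  Finset.sum_nonneg (fun i _ => h.term_nonneg i hR)

theorem Sys.SS_mono (h : Sys m N v Λ Rs) {r R : ℝ} (hr : 0 < r) (hrR : r ≤ R) :
    SS v Λ r ≤ SS v Λ R := by
  unfold SS
  apply Finset.sum_le_sum
  intro j _
  have := T2_mono (h.hv 0) (h.hv0 0) (h.hv j) hr hrR
  linarith

/-- the main inequality on a circle without zeros -/
theorem Sys.main (h : Sys m N v Λ Rs) (hm : 1 ≤ m) (hN : m ^ 2 ≤ N) {s ε : ℝ} (hs : 0 < s)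
    (hsR : s ≤ Rs) (hε : 0 < ε) (hε1 : ε ≤ 1)
    (h0 : ∀ z, ‖z‖ = s → ∀ j, ∀ w ∈ closedBall z ε, v j w ≠ 0)
    (hb : ∀ z, ‖z‖ = s → ∀ j, ∀ w ∈ closedBall z ε,
      ‖v j w / v 0 w‖ ≤ Real.exp 1 * ‖v j z / v 0 z‖) :
    SS v Λ s ≤ (m + 1) * (Real.log (Nat.factorial m) + m * (Real.log (Nat.factorial m) + N)
      + m ^ 2 * Real.log (1 / ε) + (1 + (N + 1) * (m + 1)) * Λ + (N + 1) * Λ) := by
  have hmN : m ≤ N + 1 := by nlinarith
  set G : ℂ → ℝ := fun z => Real.log (Finset.univ.sup' Finset.univ_nonempty (fun j => ‖v j z‖))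
    with hG
  have hsup_cont : Continuous (fun z : ℂ =>
      Finset.univ.sup' Finset.univ_nonempty (fun j : Fin (m + 1) => ‖v j z‖)) :=
    Continuous.finset_sup'_apply _ (fun j _ => (h.hv j).continuous.norm)
  have hle : ∀ z (j : Fin (m + 1)), ‖v j z‖
      ≤ Finset.univ.sup' Finset.univ_nonempty (fun j : Fin (m + 1) => ‖v j z‖) :=
    fun z j => Finset.le_sup' (fun j => ‖v j z‖) (Finset.mem_univ j)
  have hsph : ∀ z ∈ sphere (0 : ℂ) |s|, ‖z‖ = s := by
    intro z hz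
    rw [mem_sphere, dist_zero_right, abs_of_pos hs] at hz
    exact hz
  have hne : ∀ z, ‖z‖ = s → ∀ j, v j z ≠ 0 :=
    fun z hz j => h0 z hz j z (mem_closedBall_self hε.le)
  have hGint : CircleIntegrable G 0 s := by
    apply ContinuousOn.circleIntegrable'
    apply ContinuousOn.log hsup_cont.continuousOn
    intro z hz
    exact ((norm_pos_iff.mpr (hne z (hsph z hz) 0)).trans_le (hle z 0)).ne'
  set τ : ℝ := Real.circleAverage G 0 s with hτ
  -- comparisons with τ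
  have hLτ : ∀ j, L (v j) s ≤ τ := by
    intro j
    apply Real.circleAverage_mono (ci_log (mero_of_diff (h.hv j)) s) hGint
    intro z hz
    exact Real.log_le_log (norm_pos_iff.mpr (hne z (hsph z hz) j)) (hle z j)
  have hTτ : ∀ j, T2 (v 0) (v j) s ≤ τ := by
    intro j
    unfold T2
    unfold L
    rw [← Real.circleAverage_fun_add (ci_log (mero_of_diff (h.hv 0)) s)
      (ci_posLog (quot_mero (h.hv 0) (h.hv j)) s)]
    apply Real.circleAverage_mono ((ci_log (mero_of_diff (h.hv 0)) s).add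
      (ci_posLog (quot_mero (h.hv 0) (h.hv j)) s)) hGint
    intro z hz
    have hz' := hsph z hz
    have p0 := norm_pos_iff.mpr (hne z hz' 0)
    have pj := norm_pos_iff.mpr (hne z hz' j)
    change Real.log ‖v 0 z‖ + Real.posLog ‖v j z / v 0 z‖ ≤ G z
    rw [Real.posLog_apply, norm_div, Real.log_div pj.ne' p0.ne']
    have h1 : Real.log ‖v 0 z‖ ≤ G z := Real.log_le_log p0 (hle z 0)
    have h2 : Real.log ‖v j z‖ ≤ G z := Real.log_le_log pj (hle z j)
    rcases max_cases (0 : ℝ) (Real.log ‖v j z‖ - Real.log ‖v 0 z‖) with ⟨h3, _⟩ | ⟨h3, _⟩ <;>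
      rw [h3] <;> linarith
  have hτΛ : -Λ ≤ τ := (h.L_ge 0 hs).trans (hLτ 0)
  -- the upper bound for the Wronskian
  set C0 : ℝ := Real.log (Nat.factorial m) + m * (Real.log (Nat.factorial m) + N)
      + m ^ 2 * Real.log (1 / ε) with hC0
  have hWup : L (wr N v 0) s ≤ C0 + N * ∑ j, L (v j) s - N * τ := by
    have hsumint : CircleIntegrable (fun z => ∑ j, Real.log ‖v j z‖) 0 s :=
      CircleIntegrable.fun_sum _ (fun j _ => ci_log (mero_of_diff (h.hv j)) s)
    have i1 : CircleIntegrable (fun z => (N : ℝ) • ∑ j, Real.log ‖v j z‖) 0 s :=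
      hsumint.const_smul
    have i2 : CircleIntegrable (fun z => (N : ℝ) • G z) 0 s := hGint.const_smul
    have i3 : CircleIntegrable (fun z => C0 + (N : ℝ) • ∑ j, Real.log ‖v j z‖) 0 s :=
      (circleIntegrable_const _ _ _).add i1
    have e1 : C0 + N * ∑ j, L (v j) s - N * τ
        = Real.circleAverage (fun z => (C0 + (N : ℝ) • ∑ j, Real.log ‖v j z‖) - (N : ℝ) • G z)
          0 s := by
      rw [Real.circleAverage_fun_sub i3 i2, Real.circleAverage_fun_add
        (circleIntegrable_const _ _ _) i1, Real.circleAverage_const,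
        Real.circleAverage_fun_smul, Real.circleAverage_fun_smul, Real.circleAverage_fun_sum
        (fun j _ => ci_log (mero_of_diff (h.hv j)) s)]
      rfl
    rw [e1]
    apply avg_le_cod (ci_log (mero_of_diff (wr_diff N v h.hv 0)) s)
      (i3.sub i2) hs.ne'
    filter_upwards [ne_cod (wr_diff N v h.hv 0) h.hW s, self_mem_codiscreteWithin _] with z hz hzs
    have hz' := hsph z hzs
    obtain ⟨i, _, hi⟩ := Finset.exists_mem_eq_sup' Finset.univ_nonempty
      (fun j : Fin (m + 1) => ‖v j z‖)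
    have hup := point_upper (N := N) v h.hv hε hε1 (h0 z hz' 0) (hb z hz') i
    obtain ⟨e, he, hee⟩ := wr_norm N v h.hv h.hs i
    have hnorm : ‖wr N v i z‖ = ‖wr N v 0 z‖ := by
      rw [hee z, norm_mul]
      rcases he with rfl | rfl <;> simp
    rw [hnorm] at hup
    have hpos : 0 < ‖wr N v 0 z‖ := norm_pos_iff.mpr hz
    have h1 := Real.log_le_log hpos hup
    have hprod : (∏ b : Fin m, ‖v (i.succAbove b) z‖ ^ N) ≠ 0 :=
      Finset.prod_ne_zero_iff.mpr fun b _ => pow_ne_zero _ (norm_ne_zero_iff.mpr (hne z hz' _))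
    have hfac : ((Nat.factorial m : ℕ) : ℝ) ≠ 0 := by exact_mod_cast Nat.factorial_ne_zero m
    have hexp : Real.exp N ≠ 0 := Real.exp_ne_zero _
    have hεp : (1 / ε) ^ m ≠ 0 := pow_ne_zero _ (by positivity)
    rw [Real.log_mul (mul_ne_zero hfac (pow_ne_zero _ (mul_ne_zero (mul_ne_zero hfac hexp) hεp)))
      hprod, Real.log_mul hfac (pow_ne_zero _ (mul_ne_zero (mul_ne_zero hfac hexp) hεp)),
      Real.log_pow, Real.log_mul (mul_ne_zero hfac hexp) hεp, Real.log_mul hfac hexp,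
      Real.log_exp, Real.log_pow] at h1
    rw [Real.log_prod (fun b _ => pow_ne_zero _ (norm_ne_zero_iff.mpr (hne z hz' _)))] at h1
    simp only [Real.log_pow] at h1
    rw [← Finset.mul_sum] at h1
    have h2 : ∑ j, Real.log ‖v j z‖ = Real.log ‖v i z‖
        + ∑ b : Fin m, Real.log ‖v (i.succAbove b) z‖ :=
      Fin.sum_univ_succAbove (fun j => Real.log ‖v j z‖) i
    have h3 : G z = Real.log ‖v i z‖ := by
      simp only [hG]
      rw [hi]
    change Real.log ‖wr N v 0 z‖ ≤ (C0 + (N : ℝ) * ∑ j, Real.log ‖v j z‖) - (N : ℝ) * G z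
    rw [h2, h3, hC0]
    linarith
  have hlow := cartan_lower hmN v h.hv h.hv0 h.hs h.hW hs
    (fun z hz => h.hcz z (hz.trans hsR))
  have hM : ((N + 1 - m : ℕ) : ℝ) = N + 1 - m := by
    rw [Nat.cast_sub hmN]; push_cast; ring
  rw [hM] at hlow
  have hsum0 : ∑ j, Real.log ‖v j 0‖ ≤ (m + 1) * Λ := by
    calc ∑ j, Real.log ‖v j 0‖ ≤ ∑ _j : Fin (m + 1), Λ :=
          Finset.sum_le_sum fun j _ => (abs_le.mp (h.hΛ j)).2
      _ = (m + 1) * Λ := by simp
  have hsumL : ∑ j, L (v j) s ≤ (m + 1) * τ := by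
    calc ∑ j, L (v j) s ≤ ∑ _j : Fin (m + 1), τ := Finset.sum_le_sum fun j _ => hLτ j
      _ = (m + 1) * τ := by simp
  have hm' : (1 : ℝ) ≤ m := by exact_mod_cast hm
  have hN' : (m : ℝ) ^ 2 ≤ N := by exact_mod_cast hN
  have hmN' : (m : ℝ) ≤ N + 1 := by exact_mod_cast hmN
  have hΛ0 := h.hΛ0
  have hW0 := h.hΛW
  have h4 : (N : ℝ) * τ ≤ C0 + (m - 1) * ((m + 1) * τ) + (1 + (N + 1 - m) * (m + 1)) * Λ := by
    have h5 : ((m : ℝ) - 1) * ∑ j, L (v j) s ≤ (m - 1) * ((m + 1) * τ) :=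
      mul_le_mul_of_nonneg_left hsumL (by linarith)
    have h6 : ((N : ℝ) + 1 - m) * ∑ j, Real.log ‖v j 0‖ ≤ (N + 1 - m) * ((m + 1) * Λ) :=
      mul_le_mul_of_nonneg_left hsum0 (by linarith)
    nlinarith [hlow, hWup, h5, h6, hW0]
  have h7 : (1 + ((N : ℝ) + 1 - m) * (m + 1)) * Λ ≤ (1 + (N + 1) * (m + 1)) * Λ := by
    apply mul_le_mul_of_nonneg_right _ hΛ0
    have : ((N : ℝ) + 1 - m) * (m + 1) ≤ (N + 1) * (m + 1) :=
      mul_le_mul_of_nonneg_right (by linarith) (by linarith)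
    linarith
  have h8 : τ + Λ ≤ C0 + (1 + (N + 1) * (m + 1)) * Λ + (N + 1) * Λ := by
    have hd : 1 ≤ (N : ℝ) - (m ^ 2 - 1) := by linarith
    have h9 : τ + Λ ≤ ((N : ℝ) - (m ^ 2 - 1)) * (τ + Λ) :=
      le_mul_of_one_le_left (by linarith) hd
    have h10 : ((N : ℝ) - (m ^ 2 - 1)) * Λ ≤ (N + 1) * Λ := by
      apply mul_le_mul_of_nonneg_right _ hΛ0
      nlinarith
    have h11 : ((N : ℝ) - (m ^ 2 - 1)) * τ ≤ C0 + (1 + (N + 1) * (m + 1)) * Λ := by
      have : ((N : ℝ) - (m ^ 2 - 1)) * τ = N * τ - (m - 1) * ((m + 1) * τ) := by ring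
      rw [this]
      linarith
    calc τ + Λ ≤ ((N : ℝ) - (m ^ 2 - 1)) * (τ + Λ) := h9
      _ = ((N : ℝ) - (m ^ 2 - 1)) * τ + ((N : ℝ) - (m ^ 2 - 1)) * Λ := by ring
      _ ≤ _ := by linarith
  unfold SS
  calc ∑ j, (T2 (v 0) (v j) s + Λ) ≤ ∑ _j : Fin (m + 1), (τ + Λ) :=
        Finset.sum_le_sum fun j _ => by linarith [hTτ j]
    _ = (m + 1) * (τ + Λ) := by simp; ring
    _ ≤ _ := mul_le_mul_of_nonneg_left h8 (by linarith)

end

end Pool.Agent.H159R3.NV
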