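import Pool.Agent.H159R3.NV.StepB

/-!
The choice of a good circle and the recursive inequality.
-/

set_option autoImplicit false

namespace Pool.Agent.H159R3.NV

open Filter Metric Real Set Topology

/-- a radius far from finitely many given numbers -/
theorem good_radius (A : List ℝ) (r : ℝ) {δ : ℝ} (hδ : 0 < δ) :
    ∃ s, r ≤ s ∧ s ≤ r + δ ∧ ∀ x ∈ A, δ / (2 * (A.length + 1)) ≤ |s - x| := by
  set n := A.length with hn
  set η : ℝ := δ / (2 * (n + 1)) with hη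
  have hηpos : 0 < η := by positivity
  have hηe : 2 * (n + 1) * η = δ := by rw [hη]; field_simp
  by_contra hcon
  push Not at hcon
  have h1 : ∀ k : Fin (n + 1), ∃ i : Fin n, |r + (2 * (k : ℕ) + 1) * η - A.get (i.cast hn)| < η := by
    intro k
    have hk : ((k : ℕ) : ℝ) ≤ n := by exact_mod_cast Nat.lt_succ_iff.mp k.2
    obtain ⟨x, hx, hx2⟩ := hcon (r + (2 * (k : ℕ) + 1) * η)
      (by have : 0 ≤ (2 * ((k : ℕ) : ℝ) + 1) * η := by positivity
          linarith)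
      (by
        have : (2 * ((k : ℕ) : ℝ) + 1) * η ≤ (2 * n + 1) * η :=
          mul_le_mul_of_nonneg_right (by linarith) hηpos.le
        nlinarith)
    obtain ⟨i, hi⟩ := List.mem_iff_get.mp hx
    refine ⟨i.cast hn.symm, ?_⟩
    have : A.get ((i.cast hn.symm).cast hn) = x := by
      rw [← hi]; rfl
    rw [this]
    exact hx2
  choose f hf using h1
  obtain ⟨k, k', hne, he⟩ := Fintype.exists_ne_map_eq_of_card_lt f (by simp)
  have h2 := hf k
  have h3 := hf k'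
  rw [he] at h2
  have h4 : |(2 * ((k : ℕ) : ℝ) - 2 * ((k' : ℕ) : ℝ)) * η| < 2 * η := by
    have : (2 * ((k : ℕ) : ℝ) - 2 * ((k' : ℕ) : ℝ)) * η
        = (r + (2 * (k : ℕ) + 1) * η - A.get ((f k').cast hn))
          - (r + (2 * (k' : ℕ) + 1) * η - A.get ((f k').cast hn)) := by ring
    rw [this]
    calc _ ≤ |r + (2 * (k : ℕ) + 1) * η - A.get ((f k').cast hn)|
          + |r + (2 * (k' : ℕ) + 1) * η - A.get ((f k').cast hn)| := abs_sub _ _
      _ < 2 * η := by linarith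
  rw [abs_mul, abs_of_pos hηpos] at h4
  have h5 : |2 * ((k : ℕ) : ℝ) - 2 * ((k' : ℕ) : ℝ)| < 2 := lt_of_mul_lt_mul_right h4 hηpos.le
  have h6 : |((k : ℕ) : ℤ) - ((k' : ℕ) : ℤ)| < 1 := by
    have h7 : |((k : ℕ) : ℝ) - ((k' : ℕ) : ℝ)| < 1 := by
      rw [← mul_sub, abs_mul, abs_two] at h5
      linarith
    have h8 : ((|((k : ℕ) : ℤ) - ((k' : ℕ) : ℤ)| : ℤ) : ℝ) < 1 := by
      push_cast
      exact h7
    exact_mod_cast h8
  have h9 : ((k : ℕ) : ℤ) - ((k' : ℕ) : ℤ) = 0 := Int.abs_lt_one_iff.mp h6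
  apply hne
  apply Fin.ext
  omega

theorem log_osc {η ε : ℝ} (hη : 0 < η) (hε2 : ε ≤ η / 2) {z w a : ℂ}
    (ha : η ≤ ‖z - a‖) (hw : ‖w - z‖ ≤ ε) :
    w - a ≠ 0 ∧ |Real.log ‖w - a‖ - Real.log ‖z - a‖| ≤ 2 * ε / η := by
  have h1 : ‖w - a‖ ≤ ‖z - a‖ + ε := by
    calc ‖w - a‖ = ‖(z - a) + (w - z)‖ := by congr 1; ring
      _ ≤ ‖z - a‖ + ‖w - z‖ := norm_add_le _ _
      _ ≤ _ := by linarith
  have h2 : ‖z - a‖ ≤ ‖w - a‖ + ε := by
    calc ‖z - a‖ = ‖(w - a) - (w - z)‖ := by congr 1; ring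
      _ ≤ ‖w - a‖ + ‖w - z‖ := norm_sub_le _ _
      _ ≤ _ := by linarith
  have hwpos : η / 2 ≤ ‖w - a‖ := by linarith
  have hw0 : 0 < ‖w - a‖ := by linarith
  have hz0 : 0 < ‖z - a‖ := by linarith
  have hε0 : 0 ≤ ε := (norm_nonneg _).trans hw
  refine ⟨norm_pos_iff.mp hw0, ?_⟩
  rw [abs_le]
  constructor
  · have h3 : Real.log ‖z - a‖ - Real.log ‖w - a‖ ≤ 2 * ε / η := by
      rw [← Real.log_div hz0.ne' hw0.ne']
      refine (Real.log_le_sub_one_of_pos (div_pos hz0 hw0)).trans ?_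
      rw [div_sub_one hw0.ne', div_le_div_iff₀ hw0 hη]
      nlinarith
    linarith
  · rw [← Real.log_div hw0.ne' hz0.ne']
    refine (Real.log_le_sub_one_of_pos (div_pos hw0 hz0)).trans ?_
    rw [div_sub_one hz0.ne', div_le_div_iff₀ hz0 hη]
    nlinarith

theorem log_osc_P {η ε : ℝ} (hη : 0 < η) (hε2 : ε ≤ η / 2) {z w : ℂ}
    (hw : ‖w - z‖ ≤ ε) (Z : List ℂ) (hZ : ∀ a ∈ Z, η ≤ ‖z - a‖) :
    P Z w ≠ 0 ∧ |Real.log ‖P Z w‖ - Real.log ‖P Z z‖| ≤ Z.length * (2 * ε / η) := by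
  induction Z with
  | nil => simp [P_nil]
  | cons a Z ih =>
    obtain ⟨h1, h2⟩ := ih (fun b hb => hZ b (List.mem_cons_of_mem _ hb))
    obtain ⟨h3, h4⟩ := log_osc hη hε2 (hZ a List.mem_cons_self) hw
    have hz1 : z - a ≠ 0 := norm_pos_iff.mp (hη.trans_le (hZ a List.mem_cons_self))
    have hz2 : P Z z ≠ 0 := P_ne Z z (fun b hb h => by
      have := hZ b (List.mem_cons_of_mem _ hb)
      rw [h, sub_self, norm_zero] at this
      linarith)
    rw [P_cons, P_cons]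
    refine ⟨mul_ne_zero h3 h1, ?_⟩
    rw [norm_mul, norm_mul, Real.log_mul (norm_ne_zero_iff.mpr h3) (norm_ne_zero_iff.mpr h1),
      Real.log_mul (norm_ne_zero_iff.mpr hz1) (norm_ne_zero_iff.mpr hz2)]
    have e : Real.log ‖w - a‖ + Real.log ‖P Z w‖ - (Real.log ‖z - a‖ + Real.log ‖P Z z‖)
        = (Real.log ‖w - a‖ - Real.log ‖z - a‖) + (Real.log ‖P Z w‖ - Real.log ‖P Z z‖) := by ring
    rw [e]
    refine (abs_add_le _ _).trans ?_
    push_cast [List.length_cons]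
    linarith

theorem Y_bound {δ R1 R2 S n : ℝ} (hδ : 0 < δ) (hδ1 : δ ≤ 1) (hR1 : 0 < R1)
    (hR12 : R1 ≤ R2) (hR2one : 1 ≤ R2) (hS0 : 0 ≤ S) (hn0 : 0 ≤ n) (hnle : n ≤ R2 * S / δ) :
    2 / (δ / (2 * (n + 1))) + 1 / δ + 8 * n / (δ / (2 * (n + 1)))
      + 4 * R1 * (2 * S + 4 * n * Real.log (2 * R1)) / δ ^ 2
      ≤ 1000 * R2 ^ 3 * (S + 1) ^ 2 / δ ^ 4 := by
  set η : ℝ := δ / (2 * (n + 1)) with hη
  have hηpos : 0 < η := by positivity
  set A : ℝ := 2 * S + 4 * n * Real.log (2 * R1) with hA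
  set t : ℝ := S + 1 with ht
  have ht1 : 1 ≤ t := by linarith
  set q : ℝ := R2 * t / δ with hq
  have hq1 : 1 ≤ q := by
    rw [hq, le_div_iff₀ hδ]
    nlinarith
  have hnq : n ≤ q := by
    refine hnle.trans ?_
    rw [hq]
    exact div_le_div_of_nonneg_right (mul_le_mul_of_nonneg_left (by linarith) (by linarith)) hδ.le
  have hη' : 1 / η ≤ 4 * q / δ := by
    have : 1 / η = 2 * (n + 1) / δ := by rw [hη]; field_simp
    rw [this]
    exact div_le_div_of_nonneg_right (by linarith) hδ.le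
  have g1 : 2 / η ≤ 8 * q / δ := by
    have : 2 / η = 2 * (1 / η) := by ring
    rw [this]
    calc 2 * (1 / η) ≤ 2 * (4 * q / δ) := mul_le_mul_of_nonneg_left hη' (by norm_num)
      _ = _ := by ring
  have g2 : 8 * n / η ≤ 32 * q ^ 2 / δ := by
    have : 8 * n / η = 8 * (n * (1 / η)) := by ring
    rw [this]
    calc 8 * (n * (1 / η)) ≤ 8 * (q * (4 * q / δ)) :=
          mul_le_mul_of_nonneg_left (mul_le_mul hnq hη' (by positivity) (by linarith)) (by norm_num)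
      _ = _ := by ring
  have hlogle : Real.log (2 * R1) ≤ 2 * R2 := by
    have := Real.log_le_sub_one_of_pos (show 0 < 2 * R1 by linarith)
    linarith
  have g3 : A ≤ 10 * q * R2 := by
    have a1 : 2 * S ≤ 2 * (q * R2) := by
      have : S ≤ q := by
        rw [hq, le_div_iff₀ hδ]
        nlinarith
      nlinarith
    have a2 : 4 * n * Real.log (2 * R1) ≤ 4 * q * (2 * R2) := by
      calc 4 * n * Real.log (2 * R1) ≤ 4 * n * (2 * R2) :=
            mul_le_mul_of_nonneg_left hlogle (by positivity)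
        _ ≤ 4 * q * (2 * R2) := mul_le_mul_of_nonneg_right (by linarith) (by linarith)
    rw [hA]
    linarith
  have g4 : 4 * R1 * A / δ ^ 2 ≤ 40 * q * R2 ^ 2 / δ ^ 2 := by
    have : 4 * R1 * A ≤ 4 * R1 * (10 * q * R2) := mul_le_mul_of_nonneg_left g3 (by positivity)
    have : 4 * R1 * (10 * q * R2) ≤ 4 * R2 * (10 * q * R2) :=
      mul_le_mul_of_nonneg_right (by linarith) (by positivity)
    apply div_le_div_of_nonneg_right _ (by positivity)
    calc 4 * R1 * A ≤ 4 * R2 * (10 * q * R2) := by linarith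
      _ = _ := by ring
  have hfin : 2 / η + 1 / δ + 8 * n / η + 4 * R1 * A / δ ^ 2
      ≤ 8 * q / δ + 1 / δ + 32 * q ^ 2 / δ + 40 * q * R2 ^ 2 / δ ^ 2 := by
    linarith
  refine hfin.trans ?_
  have u3 : δ ^ 2 ≤ δ := by nlinarith
  have k1 : 8 * q / δ + 1 / δ + 32 * q ^ 2 / δ ≤ 41 * q ^ 2 / δ ^ 2 := by
    have u1 : 8 * q + 1 + 32 * q ^ 2 ≤ 41 * q ^ 2 := by nlinarith
    have u2 : 8 * q / δ + 1 / δ + 32 * q ^ 2 / δ = (8 * q + 1 + 32 * q ^ 2) / δ := by ring
    rw [u2]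
    calc (8 * q + 1 + 32 * q ^ 2) / δ ≤ 41 * q ^ 2 / δ :=
          div_le_div_of_nonneg_right u1 hδ.le
      _ ≤ 41 * q ^ 2 / δ ^ 2 := by
        apply div_le_div_of_nonneg_left (by positivity) (by positivity) u3
  have hp : 0 ≤ R2 ^ 3 * t ^ 2 := by positivity
  have k2 : 41 * q ^ 2 / δ ^ 2 ≤ 41 * R2 ^ 3 * t ^ 2 / δ ^ 4 := by
    have : 41 * q ^ 2 / δ ^ 2 = 41 * R2 ^ 2 * t ^ 2 / δ ^ 4 := by
      rw [hq]; field_simp
    rw [this]
    have h1 : R2 ^ 2 ≤ R2 ^ 3 := pow_le_pow_right₀ hR2one (by norm_num)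
    apply div_le_div_of_nonneg_right _ (by positivity)
    apply mul_le_mul_of_nonneg_right _ (by positivity)
    linarith
  have k3 : 40 * q * R2 ^ 2 / δ ^ 2 ≤ 40 * R2 ^ 3 * t ^ 2 / δ ^ 4 := by
    have e1 : 40 * q * R2 ^ 2 / δ ^ 2 = 40 * R2 ^ 3 * t / δ ^ 3 := by
      rw [hq]; field_simp
    rw [e1]
    have u4 : t ≤ t ^ 2 := by nlinarith
    have u5 : δ ^ 4 ≤ δ ^ 3 := pow_le_pow_of_le_one hδ.le hδ1 (by norm_num)
    calc 40 * R2 ^ 3 * t / δ ^ 3 ≤ 40 * R2 ^ 3 * t ^ 2 / δ ^ 3 :=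
          div_le_div_of_nonneg_right (mul_le_mul_of_nonneg_left u4 (by positivity)) (by positivity)
      _ ≤ 40 * R2 ^ 3 * t ^ 2 / δ ^ 4 := by
        apply div_le_div_of_nonneg_left (by positivity) (by positivity) u5
  have k4 : 41 * R2 ^ 3 * t ^ 2 / δ ^ 4 + 40 * R2 ^ 3 * t ^ 2 / δ ^ 4
      ≤ 1000 * R2 ^ 3 * t ^ 2 / δ ^ 4 := by
    rw [← add_div]
    apply div_le_div_of_nonneg_right _ (by positivity)
    nlinarith
  linarith

section

variable {m N : ℕ} {v : Fin (m + 1) → ℂ → ℂ} {Λ Rs : ℝ}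

/-- the recursive inequality -/
theorem Sys.recur (h : Sys m N v Λ Rs) (hm : 1 ≤ m) (hN : m ^ 2 ≤ N) {r δ : ℝ} (hr : 1 ≤ r)
    (hδ : 0 < δ) (hδ1 : δ ≤ 1) (hR : r + 4 * δ ≤ Rs) :
    SS v Λ r ≤ (m + 1) * (Real.log (Nat.factorial m) + m * (Real.log (Nat.factorial m) + N)
      + m ^ 2 * Real.log (1000 * (r + 4 * δ) ^ 3 * (SS v Λ (r + 4 * δ) + 1) ^ 2 / δ ^ 4)
      + (1 + (N + 1) * (m + 1)) * Λ + (N + 1) * Λ) := by
  set R1 : ℝ := r + 3 * δ with hR1
  set R2 : ℝ := r + 4 * δ with hR2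
  have hR1pos : 0 < R1 := by linarith
  have hR2pos : 0 < R2 := by linarith
  have hR12 : R1 < R2 := by linarith
  have hR2one : 1 ≤ R2 := by linarith
  set S : ℝ := SS v Λ R2 with hS
  have hS0 : 0 ≤ S := h.SS_nonneg hR2pos
  have hfac := fun j => factor_ball (v j) (h.hv j) (h.hv0 j) hR1pos
  choose Z k hk hvk hZ hkne using hfac
  -- counting
  have hcount : ∀ j, ((Z j).length : ℝ) * Real.log (R2 / R1) ≤ T2 (v 0) (v j) R2 + Λ := by
    intro j
    have hne : P (Z j) 0 * k j 0 ≠ 0 := by rw [← hvk]; exact h.hv0 j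
    have h1 := count_le (Z j) (k j) (hk j) hR1pos hR12 (hZ j) hne
    rw [← hvk] at h1
    have e : (fun z => P (Z j) z * k j z) = v j := funext fun z => (hvk j z).symm
    rw [e] at h1
    have h2 := T2_ge_L (h.hv 0) (h.hv j) (h.hv0 0) (h.hv0 j) hR2pos.ne'
    have h3 := (abs_le.mp (h.hΛ j)).1
    linarith
  set n : ℕ := ∑ j, (Z j).length with hn
  have hlog : δ / R2 ≤ Real.log (R2 / R1) := by
    have h1 := Real.one_sub_inv_le_log_of_pos (div_pos hR2pos hR1pos)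
    rw [inv_div] at h1
    have h2 : δ / R2 = 1 - R1 / R2 := by
      rw [hR1, eq_sub_iff_add_eq, ← add_div, div_eq_one_iff_eq hR2pos.ne', hR2]
      ring
    linarith
  have hnle : (n : ℝ) ≤ R2 * S / δ := by
    have h1 : (n : ℝ) * Real.log (R2 / R1) ≤ S := by
      rw [hn]
      push_cast
      rw [Finset.sum_mul]
      exact Finset.sum_le_sum fun j _ => hcount j
    have h2 : (n : ℝ) * (δ / R2) ≤ S :=
      (mul_le_mul_of_nonneg_left hlog (Nat.cast_nonneg n)).trans h1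
    rw [le_div_iff₀ hδ]
    have h3 : (n : ℝ) * δ = (n : ℝ) * (δ / R2) * R2 := by field_simp
    rw [h3]
    nlinarith
  have hnj : ∀ j, ((Z j).length : ℝ) ≤ n := by
    intro j
    have := Finset.single_le_sum (f := fun j => (Z j).length) (fun i _ => Nat.zero_le _)
      (Finset.mem_univ j)
    exact_mod_cast this
  -- means of log of the zero free parts
  set A : ℝ := 2 * S + 4 * n * Real.log (2 * R1) with hA
  have hlogR1 : 0 ≤ Real.log (2 * R1) := Real.log_nonneg (by linarith)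
  have hA0 : 0 ≤ A := by positivity
  have hmean : ∀ j, Real.circleAverage (fun z => |Real.log ‖k j z / k 0 z‖|) 0 R1 ≤ A := by
    intro j
    have hk0 : ∀ j, k j 0 ≠ 0 := fun j => hkne j 0 (by simpa using hR1pos.le)
    have i0 := ci_abs (ci_log (quot_mero (hk 0) (hk j)) R1)
    have i1 := ci_abs (ci_log (quot_mero (h.hv 0) (h.hv j)) R1)
    have i2 := ci_abs (ci_log (mero_of_diff (P_diff (Z j))) R1)
    have i3 := ci_abs (ci_log (mero_of_diff (P_diff (Z 0))) R1)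
    have h1 : Real.circleAverage (fun z => |Real.log ‖k j z / k 0 z‖|) 0 R1
        ≤ Real.circleAverage (fun z => |Real.log ‖v j z / v 0 z‖| + |Real.log ‖P (Z j) z‖|
          + |Real.log ‖P (Z 0) z‖|) 0 R1 := by
      apply avg_le_cod i0 ((i1.add i2).add i3) hR1pos.ne'
      filter_upwards [ne_cod (h.hv j) (h.hv0 j) R1, ne_cod (h.hv 0) (h.hv0 0) R1] with z hzj hz0
      change _ ≤ |Real.log ‖v j z / v 0 z‖| + |Real.log ‖P (Z j) z‖| + |Real.log ‖P (Z 0) z‖|
      have hvj := hzj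
      have hv0' := hz0
      rw [hvk j z] at hvj
      rw [hvk 0 z] at hv0'
      have a1 := norm_ne_zero_iff.mpr (left_ne_zero_of_mul hvj)
      have a2 := norm_ne_zero_iff.mpr (right_ne_zero_of_mul hvj)
      have a3 := norm_ne_zero_iff.mpr (left_ne_zero_of_mul hv0')
      have a4 := norm_ne_zero_iff.mpr (right_ne_zero_of_mul hv0')
      rw [hvk j z, hvk 0 z, norm_div, norm_div, norm_mul, norm_mul, Real.log_div a2 a4,
        Real.log_div (mul_ne_zero a1 a2) (mul_ne_zero a3 a4), Real.log_mul a1 a2,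
        Real.log_mul a3 a4]
      have e : Real.log ‖k j z‖ - Real.log ‖k 0 z‖
          = (Real.log ‖P (Z j) z‖ + Real.log ‖k j z‖ - (Real.log ‖P (Z 0) z‖ + Real.log ‖k 0 z‖))
            - Real.log ‖P (Z j) z‖ + Real.log ‖P (Z 0) z‖ := by ring
      calc |Real.log ‖k j z‖ - Real.log ‖k 0 z‖| = _ := congrArg abs e
        _ ≤ |(Real.log ‖P (Z j) z‖ + Real.log ‖k j z‖ - (Real.log ‖P (Z 0) z‖ + Real.log ‖k 0 z‖))
            - Real.log ‖P (Z j) z‖| + |Real.log ‖P (Z 0) z‖| := abs_add_le _ _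
        _ ≤ _ := by
          have := abs_sub (Real.log ‖P (Z j) z‖ + Real.log ‖k j z‖
            - (Real.log ‖P (Z 0) z‖ + Real.log ‖k 0 z‖)) (Real.log ‖P (Z j) z‖)
          linarith
    have i12 : CircleIntegrable (fun z => |Real.log ‖v j z / v 0 z‖| + |Real.log ‖P (Z j) z‖|)
        0 R1 := i1.add i2
    rw [Real.circleAverage_fun_add i12 i3, Real.circleAverage_fun_add i1 i2,
      avg_abs_quot (h.hv 0) (h.hv j) (h.hv0 0) (h.hv0 j) hR1pos.ne'] at h1
    have h2 := avg_abs_P (Z j) (R := R1) (by linarith) (hZ j)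
    have h3 := avg_abs_P (Z 0) (R := R1) (by linarith) (hZ 0)
    have h4 := T2_mono (h.hv 0) (h.hv0 0) (h.hv j) hR1pos hR12.le
    have h5 := h.L_ge 0 hR1pos
    have h6 := h.L_ge j hR1pos
    have h7 := h.term_le j hR2pos
    have h8 : ((Z j).length : ℝ) * (2 * Real.log (2 * R1)) ≤ n * (2 * Real.log (2 * R1)) :=
      mul_le_mul_of_nonneg_right (hnj j) (by linarith)
    have h9 : ((Z 0).length : ℝ) * (2 * Real.log (2 * R1)) ≤ n * (2 * Real.log (2 * R1)) :=
      mul_le_mul_of_nonneg_right (hnj 0) (by linarith)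
    rw [hA]
    linarith
  -- the good radius
  set Al : List ℝ := (List.ofFn Z).flatten.map (fun a => ‖a‖) with hAl
  have hAlen : Al.length = n := by
    rw [hAl, List.length_map, List.length_flatten, List.map_ofFn, List.sum_ofFn, hn]
    rfl
  obtain ⟨s, hrs, hsδ, hsA⟩ := good_radius Al r hδ
  rw [hAlen] at hsA
  set η : ℝ := δ / (2 * (n + 1)) with hη
  have hηpos : 0 < η := by positivity
  have hηδ : η ≤ δ := by
    rw [hη]
    apply div_le_self hδ.le
    have : (0 : ℝ) ≤ n := Nat.cast_nonneg n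
    linarith
  have hdist : ∀ z : ℂ, ‖z‖ = s → ∀ j, ∀ a ∈ Z j, η ≤ ‖z - a‖ := by
    intro z hz j a ha
    have h1 : ‖a‖ ∈ Al := by
      rw [hAl]
      apply List.mem_map_of_mem
      rw [List.mem_flatten]
      exact ⟨Z j, by rw [List.mem_ofFn]; exact ⟨j, rfl⟩, ha⟩
    have h2 := hsA ‖a‖ h1
    rw [← hz] at h2
    exact h2.trans (abs_norm_sub_norm_le z a)
  set Y : ℝ := 2 / η + 1 / δ + 8 * n / η + 4 * R1 * A / δ ^ 2 with hY
  have t1 : 0 < 2 / η := by positivity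
  have t2 : 0 < 1 / δ := by positivity
  have t3 : 0 ≤ 8 * n / η := by positivity
  have t4 : 0 ≤ 4 * R1 * A / δ ^ 2 := by positivity
  have hYpos : 0 < Y := by linarith
  set ε : ℝ := 1 / Y with hε
  have hεpos : 0 < ε := by positivity
  have hεY : ε * Y = 1 := by rw [hε]; field_simp
  have hε1 : ε ≤ 1 := by
    rw [hε, div_le_one hYpos]
    have : 1 ≤ 1 / δ := by rw [le_div_iff₀ hδ]; linarith
    linarith
  have hεη : ε ≤ η / 2 := by
    rw [hε, div_le_iff₀ hYpos]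
    have : η / 2 * (2 / η) = 1 := by field_simp
    nlinarith
  have hεδ : ε ≤ δ := by linarith
  have hosc1 : 2 * (n * (2 * ε / η)) ≤ 1 / 2 := by
    have h1 : ε * (8 * n / η) ≤ 1 := by
      rw [← hεY]
      exact mul_le_mul_of_nonneg_left (by linarith) hεpos.le
    have h2 : 2 * ((n : ℝ) * (2 * ε / η)) = ε * (8 * n / η) / 2 := by ring
    rw [h2]
    linarith
  have hosc2 : 2 * R1 * ε / δ ^ 2 * A ≤ 1 / 2 := by
    have h1 : ε * (4 * R1 * A / δ ^ 2) ≤ 1 := by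
      rw [← hεY]
      exact mul_le_mul_of_nonneg_left (by linarith) hεpos.le
    have h2 : 2 * R1 * ε / δ ^ 2 * A = ε * (4 * R1 * A / δ ^ 2) / 2 := by ring
    rw [h2]
    linarith
  have hspos : 0 < s := by linarith
  have hne : ∀ z, ‖z‖ = s → ∀ j, ∀ w ∈ closedBall z ε, v j w ≠ 0 := by
    intro z hz j w hw
    rw [mem_closedBall, dist_eq_norm] at hw
    have h1 := (log_osc_P hηpos hεη hw (Z j) (hdist z hz j)).1
    rw [hvk]
    apply mul_ne_zero h1
    apply hkne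
    calc ‖w‖ = ‖z + (w - z)‖ := by congr 1; ring
      _ ≤ ‖z‖ + ‖w - z‖ := norm_add_le _ _
      _ ≤ R1 := by rw [hz, hR1]; linarith
  have hb : ∀ z, ‖z‖ = s → ∀ j, ∀ w ∈ closedBall z ε,
      ‖v j w / v 0 w‖ ≤ Real.exp 1 * ‖v j z / v 0 z‖ := by
    intro z hz j w hw
    have hzz : z ∈ closedBall z ε := mem_closedBall_self hεpos.le
    have b1 := hne z hz j w hw
    have b2 := hne z hz 0 w hw
    have b3 := hne z hz j z hzz
    have b4 := hne z hz 0 z hzz
    rw [mem_closedBall, dist_eq_norm] at hw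
    have h1 := (log_osc_P hηpos hεη hw (Z j) (hdist z hz j)).2
    have h2 := (log_osc_P hηpos hεη hw (Z 0) (hdist z hz 0)).2
    have hwn : ‖w‖ ≤ R1 - δ := by
      calc ‖w‖ = ‖z + (w - z)‖ := by congr 1; ring
        _ ≤ ‖z‖ + ‖w - z‖ := norm_add_le _ _
        _ ≤ _ := by rw [hz, hR1]; linarith
    have hzn : ‖z‖ ≤ R1 - δ := by rw [hz, hR1]; linarith
    have h3 := poisson_diff (k := fun z => k j z / k 0 z) hR1pos hδ
      (fun z hz => ((hk j).analyticAt z).div ((hk 0).analyticAt z) (hkne 0 z (by simpa using hz)))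
      (fun z hz => div_ne_zero (hkne j z (by simpa using hz)) (hkne 0 z (by simpa using hz)))
      hwn hzn
    have hA' := hmean j
    have h4 : 2 * R1 * ‖w - z‖ / δ ^ 2 *
        Real.circleAverage (fun ζ => |Real.log ‖k j ζ / k 0 ζ‖|) 0 R1
        ≤ 2 * R1 * ε / δ ^ 2 * A := by
      apply mul_le_mul _ hA' (Real.circleAverage_nonneg_of_nonneg (fun z _ => abs_nonneg _))
        (by positivity)
      gcongr
    have h5 : |Real.log ‖v j w / v 0 w‖ - Real.log ‖v j z / v 0 z‖| ≤ 1 := by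
      rw [hvk j w, hvk 0 w] at *
      rw [hvk j z, hvk 0 z] at *
      have c1 := norm_ne_zero_iff.mpr (left_ne_zero_of_mul b1)
      have c2 := norm_ne_zero_iff.mpr (right_ne_zero_of_mul b1)
      have c3 := norm_ne_zero_iff.mpr (left_ne_zero_of_mul b2)
      have c4 := norm_ne_zero_iff.mpr (right_ne_zero_of_mul b2)
      have d1 := norm_ne_zero_iff.mpr (left_ne_zero_of_mul b3)
      have d2 := norm_ne_zero_iff.mpr (right_ne_zero_of_mul b3)
      have d3 := norm_ne_zero_iff.mpr (left_ne_zero_of_mul b4)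
      have d4 := norm_ne_zero_iff.mpr (right_ne_zero_of_mul b4)
      simp only [norm_div, norm_mul] at h3 ⊢
      rw [Real.log_div c2 c4, Real.log_div d2 d4] at h3
      rw [Real.log_div (mul_ne_zero c1 c2) (mul_ne_zero c3 c4),
        Real.log_div (mul_ne_zero d1 d2) (mul_ne_zero d3 d4), Real.log_mul c1 c2,
        Real.log_mul c3 c4, Real.log_mul d1 d2, Real.log_mul d3 d4]
      simp only [norm_div] at h4
      have e1 : ((Z j).length : ℝ) * (2 * ε / η) ≤ n * (2 * ε / η) :=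
        mul_le_mul_of_nonneg_right (hnj j) (by positivity)
      have e2 : ((Z 0).length : ℝ) * (2 * ε / η) ≤ n * (2 * ε / η) :=
        mul_le_mul_of_nonneg_right (hnj 0) (by positivity)
      have f1 := abs_le.mp h1
      have f2 := abs_le.mp h2
      have f3 := abs_le.mp h3
      rw [abs_le]
      constructor <;> linarith
    have h6 : Real.log ‖v j w / v 0 w‖ ≤ Real.log (Real.exp 1 * ‖v j z / v 0 z‖) := by
      rw [Real.log_mul (Real.exp_ne_zero _) (norm_ne_zero_iff.mpr (div_ne_zero b3 b4)),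
        Real.log_exp]
      have := (abs_le.mp h5).2
      linarith
    exact (Real.log_le_log_iff (norm_pos_iff.mpr (div_ne_zero b1 b2))
      (mul_pos (Real.exp_pos _) (norm_pos_iff.mpr (div_ne_zero b3 b4)))).mp h6
  have hmain := h.main hm hN hspos (by linarith) hεpos hε1 hne hb
  have hmono := h.SS_mono (by linarith : 0 < r) hrs
  have hYb : 1 / ε ≤ 1000 * R2 ^ 3 * (S + 1) ^ 2 / δ ^ 4 := by
    have e0 : 1 / ε = Y := by rw [hε]; field_simp
    rw [e0]
    exact Y_bound hδ hδ1 hR1pos hR12.le hR2one hS0 (Nat.cast_nonneg n) hnle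
  have hlogY : Real.log (1 / ε) ≤ Real.log (1000 * R2 ^ 3 * (S + 1) ^ 2 / δ ^ 4) :=
    Real.log_le_log (by positivity) hYb
  refine hmono.trans (hmain.trans ?_)
  apply mul_le_mul_of_nonneg_left _ (by positivity)
  have : (m : ℝ) ^ 2 * Real.log (1 / ε)
      ≤ (m : ℝ) ^ 2 * Real.log (1000 * R2 ^ 3 * (S + 1) ^ 2 / δ ^ 4) :=
    mul_le_mul_of_nonneg_left hlogY (by positivity)
  linarith

end

end Pool.Agent.H159R3.NV
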