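import Mathlib

/-!
The ring of entire functions and the Wronskian criterion for linear independence.
-/

set_option autoImplicit false

namespace Pool.Agent.H159R3.NV

open Finset

/-- the algebra of entire functions -/
def Ent : Subalgebra ℂ (ℂ → ℂ) where
  carrier := {f | Differentiable ℂ f}
  mul_mem' := fun hf hg => hf.mul hg
  add_mem' := fun hf hg => hf.add hg
  algebraMap_mem' := fun c => differentiable_const c

theorem Ent.diff (f : Ent) : Differentiable ℂ (f : ℂ → ℂ) := f.2

theorem ent_eq_zero_or {f g : ℂ → ℂ} (hf : Differentiable ℂ f) (hg : Differentiable ℂ g)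
    (h : ∀ z, f z * g z = 0) : f = 0 ∨ g = 0 := by
  by_cases hf0 : f = 0
  · exact Or.inl hf0
  right
  obtain ⟨z0, hz0⟩ := Function.ne_iff.mp hf0
  have hfa : AnalyticOnNhd ℂ g Set.univ := fun z _ => hg.analyticAt z
  have hev : ∀ᶠ z in nhds z0, g z = 0 := by
    have : ∀ᶠ z in nhds z0, f z ≠ 0 := hf.continuous.continuousAt.eventually_ne hz0
    filter_upwards [this] with z hz
    exact (mul_eq_zero.mp (h z)).resolve_left hz
  have := hfa.eqOn_zero_of_preconnected_of_eventuallyEq_zero isPreconnected_univ
    (Set.mem_univ z0) hev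
  funext z
  exact this (Set.mem_univ z)

instance : IsDomain Ent := by
  have : NoZeroDivisors Ent := ⟨by
    intro a b hab
    rcases ent_eq_zero_or a.2 b.2 (fun z => congrFun (congrArg Subtype.val hab) z) with h | h
    · left; exact Subtype.ext h
    · right; exact Subtype.ext h⟩
  have : Nontrivial Ent := ⟨⟨0, 1, by
    intro h
    have := congrFun (congrArg Subtype.val h) 0
    simp at this⟩⟩
  exact NoZeroDivisors.to_isDomain Ent

/-- the derivation -/
noncomputable def Dv : Derivation ℂ Ent Ent where
  toFun f := ⟨deriv f, (f.2.contDiff (n := 2)).differentiable_deriv_two⟩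
  map_add' f g := by
    apply Subtype.ext
    funext z
    exact deriv_add (f.2 z) (g.2 z)
  map_smul' c f := by
    apply Subtype.ext
    funext z
    exact deriv_const_smul c (f.2 z)
  map_one_eq_zero' := by
    apply Subtype.ext
    funext z
    simp
  leibniz' f g := by
    apply Subtype.ext
    funext z
    have := deriv_mul (f.2 z) (g.2 z)
    simp only [Subalgebra.coe_mul, Subalgebra.coe_add, smul_eq_mul, Pi.add_apply, Pi.mul_apply,
      LinearMap.coe_mk, AddHom.coe_mk]
    rw [this]; ring

theorem Dv_coe (f : Ent) : ((Dv f : Ent) : ℂ → ℂ) = deriv f := rfl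

theorem Dv_iter (f : Ent) (l : ℕ) : (((Dv : Ent → Ent)^[l] f : Ent) : ℂ → ℂ)
    = iteratedDeriv l (f : ℂ → ℂ) := by
  induction l with
  | zero => simp
  | succ l ih =>
    rw [Function.iterate_succ_apply', Dv_coe, ih, iteratedDeriv_succ]

theorem prop_of_Dv (b : Ent) (hb : b ≠ 0) (a : Ent) (h : a * Dv b = b * Dv a) :
    ∃ x : ℂ, a = x • b := by
  have hb' : (b : ℂ → ℂ) ≠ 0 := fun h0 => hb (Subtype.ext h0)
  obtain ⟨z0, hz0⟩ := Function.ne_iff.mp hb'
  have hz0' : (b : ℂ → ℂ) z0 ≠ 0 := hz0
  set x : ℂ := (a : ℂ → ℂ) z0 / (b : ℂ → ℂ) z0 with hx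
  refine ⟨x, ?_⟩
  -- on a ball where b ≠ 0 the quotient is constant
  have hev : ∀ᶠ z in nhds z0, (b : ℂ → ℂ) z ≠ 0 := b.2.continuous.continuousAt.eventually_ne hz0'
  obtain ⟨ε, hε, hball⟩ := Metric.eventually_nhds_iff_ball.mp hev
  have hq : ∀ z ∈ Metric.ball z0 ε, (a : ℂ → ℂ) z / (b : ℂ → ℂ) z = x := by
    intro z hz
    have hd : DifferentiableOn ℂ (fun z => (a : ℂ → ℂ) z / (b : ℂ → ℂ) z) (Metric.ball z0 ε) :=
      fun w hw => ((a.2 w).div (b.2 w) (hball w hw)).differentiableWithinAt
    have hder : ∀ w ∈ Metric.ball z0 ε, derivWithin (fun z => (a : ℂ → ℂ) z / (b : ℂ → ℂ) z)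
        (Metric.ball z0 ε) w = 0 := by
      intro w hw
      rw [derivWithin_of_isOpen Metric.isOpen_ball hw, deriv_fun_div (a.2 w) (b.2 w) (hball w hw)]
      have h1 := congrFun (congrArg Subtype.val h) w
      have h2 : (a : ℂ → ℂ) w * deriv b w = (b : ℂ → ℂ) w * deriv a w := h1
      rw [div_eq_zero_iff]
      left
      linear_combination -h2
    have := (Metric.isOpen_ball.is_const_of_deriv_eq_zero (convex_ball z0 ε).isPreconnected hd
      (fun w hw => by
        rw [← derivWithin_of_isOpen Metric.isOpen_ball hw]; exact hder w hw)) hz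
      (Metric.mem_ball_self hε)
    simpa [hx] using this
  have hfa : AnalyticOnNhd ℂ (fun z => (a : ℂ → ℂ) z - x * (b : ℂ → ℂ) z) Set.univ :=
    fun z _ => (a.2.sub (b.2.const_mul x)).analyticAt z
  have hev2 : ∀ᶠ z in nhds z0, (a : ℂ → ℂ) z - x * (b : ℂ → ℂ) z = 0 := by
    filter_upwards [Metric.ball_mem_nhds z0 hε] with z hz
    have h1 := hq z hz
    have h2 := hball z hz
    rw [div_eq_iff h2] at h1
    rw [h1]; ring
  have h3 := hfa.eqOn_zero_of_preconnected_of_eventuallyEq_zero isPreconnected_univ
    (Set.mem_univ z0) hev2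
  apply Subtype.ext
  funext z
  have h4 := h3 (Set.mem_univ z)
  simp only [Pi.zero_apply] at h4
  change (a : ℂ → ℂ) z = x • (b : ℂ → ℂ) z
  rw [smul_eq_mul]
  linear_combination h4

/-- Wronskian criterion. -/
theorem wron_dep : ∀ (r : ℕ) (f : Fin r → Ent),
      (Matrix.of fun b l : Fin r => ((Dv : Ent → Ent)^[(l : ℕ)]) (f b)).det = 0 →
      ∃ c : Fin r → ℂ, c ≠ 0 ∧ ∑ b, c b • f b = 0 := by
  intro r
  induction r with
  | zero => intro f h; simp at h
  | succ r ih =>
    intro f h
    by_cases hW : (Matrix.of fun b l : Fin r => ((Dv : Ent → Ent)^[(l : ℕ)]) (f b.succ)).det = 0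
    · obtain ⟨c, hc, hs⟩ := ih (fun b => f b.succ) hW
      refine ⟨Fin.cons 0 c, ?_, ?_⟩
      · intro h0
        apply hc
        funext b
        have := congrFun h0 b.succ
        simpa using this
      · rw [Fin.sum_univ_succ]
        simp [hs]
    · obtain ⟨a, ha, hM⟩ := Matrix.exists_vecMul_eq_zero_iff.2 h
      have hrel : ∀ l : ℕ, l < r + 1 → ∑ b, a b * ((Dv : Ent → Ent)^[l]) (f b) = 0 := by
        intro l hl
        have := congrFun hM ⟨l, hl⟩
        simpa [Matrix.vecMul, dotProduct] using this
      have hker : ∀ u : Fin r → Ent, (∀ l : ℕ, l < r → ∑ b, u b * ((Dv : Ent → Ent)^[l]) (f b.succ) = 0) →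
          u = 0 := by
        intro u hu
        by_contra hne
        apply hW
        refine Matrix.exists_vecMul_eq_zero_iff.1 ⟨u, hne, ?_⟩
        funext l
        simpa [Matrix.vecMul, dotProduct] using hu l l.2
      have ha0 : a 0 ≠ 0 := by
        intro h0
        have h1 : (fun b : Fin r => a b.succ) = 0 := by
          apply hker
          intro l hl
          have := hrel l (by omega)
          rw [Fin.sum_univ_succ, h0] at this
          simpa using this
        apply ha
        funext b
        refine Fin.cases h0 (fun b => ?_) b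
        exact congrFun h1 b
      -- differentiate the relations
      have hrel' : ∀ l : ℕ, l < r → ∑ b, Dv (a b) * ((Dv : Ent → Ent)^[l]) (f b) = 0 := by
        intro l hl
        have h1 := hrel l (by omega)
        have h2 := hrel (l + 1) (by omega)
        have h3 := congrArg Dv h1
        rw [map_sum, map_zero] at h3
        simp only [Derivation.leibniz, smul_eq_mul] at h3
        rw [Finset.sum_add_distrib] at h3
        simp only [Function.iterate_succ_apply'] at h2
        rw [h2, zero_add] at h3
        rw [← h3]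
        exact Finset.sum_congr rfl fun b _ => mul_comm _ _
      have hu : (fun b : Fin r => a 0 * Dv (a b.succ) - a b.succ * Dv (a 0)) = 0 := by
        apply hker
        intro l hl
        have h1 := hrel l (by omega)
        have h2 := hrel' l hl
        rw [Fin.sum_univ_succ] at h1 h2
        have e : ∑ b : Fin r, (a 0 * Dv (a b.succ) - a b.succ * Dv (a 0)) * ((Dv : Ent → Ent)^[l]) (f b.succ)
            = a 0 * ∑ b : Fin r, Dv (a b.succ) * ((Dv : Ent → Ent)^[l]) (f b.succ)
              - Dv (a 0) * ∑ b : Fin r, a b.succ * ((Dv : Ent → Ent)^[l]) (f b.succ) := by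
          rw [Finset.mul_sum, Finset.mul_sum, ← Finset.sum_sub_distrib]
          exact Finset.sum_congr rfl fun b _ => by ring
        rw [e]
        have e1 : ∑ b : Fin r, Dv (a b.succ) * ((Dv : Ent → Ent)^[l]) (f b.succ)
            = - (Dv (a 0) * ((Dv : Ent → Ent)^[l]) (f 0)) := by
          linear_combination h2
        have e2 : ∑ b : Fin r, a b.succ * ((Dv : Ent → Ent)^[l]) (f b.succ)
            = - (a 0 * ((Dv : Ent → Ent)^[l]) (f 0)) := by
          linear_combination h1
        rw [e1, e2]
        ring
      have hx' : ∀ b : Fin r, ∃ x : ℂ, a b.succ = x • a 0 := by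
        intro b
        apply prop_of_Dv _ ha0
        have := congrFun hu b
        simp only [Pi.zero_apply] at this
        linear_combination -this
      choose x hx' using hx'
      refine ⟨Fin.cons 1 x, ?_, ?_⟩
      · intro h0
        have := congrFun h0 0
        simp at this
      · apply mul_left_cancel₀ ha0
        rw [mul_zero, Fin.sum_univ_succ]
        simp only [Fin.cons_zero, Fin.cons_succ]
        have h1 := hrel 0 (by omega)
        simp only [Function.iterate_zero, id_eq] at h1
        rw [Fin.sum_univ_succ] at h1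
        rw [mul_add, Finset.mul_sum, one_smul, ← h1]
        congr 1
        refine Finset.sum_congr rfl fun b _ => ?_
        rw [hx' b]
        simp only [Algebra.smul_def]
        ring

/-- The Wronskian of linearly independent entire functions is not identically zero. -/
theorem wron_ne {m : ℕ} (g : Fin m → ℂ → ℂ) (hg : ∀ i, Differentiable ℂ (g i))
    (hind : ∀ c : Fin m → ℂ, (∀ z, ∑ i, c i * g i z = 0) → c = 0) :
    ∃ z, (Matrix.of fun b l : Fin m => iteratedDeriv l (g b) z).det ≠ 0 := by
  by_contra hcon
  push Not at hcon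
  let f : Fin m → Ent := fun i => ⟨g i, hg i⟩
  obtain ⟨c, hc, hs⟩ := wron_dep m f (by
    apply Subtype.ext
    funext z
    let ev : Ent →+* ℂ := (Pi.evalRingHom (fun _ : ℂ => ℂ) z).comp Ent.val.toRingHom
    have : ev ((Matrix.of fun b l : Fin m => ((Dv : Ent → Ent)^[(l : ℕ)]) (f b)).det)
        = (Matrix.of fun b l : Fin m => iteratedDeriv l (g b) z).det := by
      rw [RingHom.map_det]
      congr 1
      ext b l
      simp only [RingHom.mapMatrix_apply, Matrix.map_apply, Matrix.of_apply]
      change (((Dv : Ent → Ent)^[(l : ℕ)] (f b) : Ent) : ℂ → ℂ) z = _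
      rw [Dv_iter]
    have h2 := this.trans (hcon z)
    exact h2)
  apply hc
  apply hind
  intro z
  have := congrFun (congrArg Subtype.val hs) z
  simpa [f] using this

end Pool.Agent.H159R3.NV
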